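import Mathlib
/-! T-JUNCTION: the averaging operator on the odd widths `n = 2m+1` (coded by `m`) and the class of functions
for which the limit theorem holds.  `K (n(n+1)) = n(n+1) + 8/3` for `m ≥ 1`. -/
namespace IP.Junc
open Finset Filter Topology

/-- up rate of the width `2m+1` -/
noncomputable def ku (m : ℕ) : ℝ := (6 * m + 5) * (6 * m + 8) / (9 * (4 * m + 3) * (4 * m + 5))
/-- down rate of the width `2m+1` -/
noncomputable def kd (m : ℕ) : ℝ := (6 * m + 1) * (6 * m + 4) / (9 * (4 * m + 1) * (4 * m + 3))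
/-- averaging; reflected at `m = 0` (Nat subtraction) -/
noncomputable def KK (g : ℕ → ℝ) (m : ℕ) : ℝ := g m + ku m * (g (m + 1) - g m) + kd m * (g (m - 1) - g m)

/-- the properties of the crossing probability `u m c q` of the T-junction with upper leg `2m+1`, lower leg `2c+1`,
right leg `2q+1` which give its limit -/
structure Har (u : ℕ → ℕ → ℕ → ℝ) : Prop where
  nonneg : ∀ m c q, 0 ≤ u m c q
  le_one : ∀ m c q, u m c q ≤ 1
  har : ∀ m c q, 1 ≤ m → (1 ≤ q ∨ m + 1 ≤ c) → KK (fun m' => KK (fun q' => u m' c q') q) m = u m c q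
  left : ∀ ε : ℝ, 0 < ε → ∃ η : ℝ, 0 < η ∧ ∃ N : ℕ, ∀ m c q : ℕ, N ≤ c →
    ((m : ℝ) ≤ η * c ∨ (c ≤ q ∧ (m : ℝ) ≤ η * q)) → u m c q ≤ ε
  right : ∀ ε : ℝ, 0 < ε → ∃ η : ℝ, 0 < η ∧ ∃ N : ℕ, ∀ m c q : ℕ, N ≤ c →
    (q : ℝ) ≤ η * c → (1 - η) * c ≤ m → 1 - ε ≤ u m c q

/-! ### the limit function -/

/-- the marked corner: the root in `(0,1)` of `t^2 - (1-X-Y) t = Y` -/
noncomputable def tt (X Y : ℝ) : ℝ := ((1 - X - Y) + Real.sqrt ((1 - X - Y) ^ 2 + 4 * Y)) / 2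
end IP.Junc
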