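import Pool.Agent.Helper33.J.W
import Pool.Agent.Helper60.J.Chain
/-! The limit function `WW X Y = cardy (1 - t)`, `t = tt X Y` (module by helper33). -/
namespace IP.Junc
open Finset Filter Topology Set

/-- the limit -/
noncomputable def WW (X Y : ℝ) : ℝ := JW.W X Y

theorem WW_eq (X Y : ℝ) : WW X Y = Slit.cardy (1 - tt X Y) := by
  have h := JW.one_sub_lam X Y
  have h2 : tt X Y = 1 - JW.lam X Y := by
    rw [h]
    rfl
  rw [h2, sub_sub_cancel]
  rfl
end IP.Junc
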