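import Pool.Agent.Helper60.J.Poly
import Pool.Agent.Helper31.J.CIz
/-! MODULE CI: the uniform homogeneous formula `1 - F = CI m c q` (upper leg `2m+1`, lower leg `2c+1`, right leg `2q+1`),
checked numerically for all small values, also for `m > c`.  `z` is the angle: `xc z = 2cos 2z`, `xmc z = 2cos(2z-2π/3)`
are two roots `x` of `x^3-3x = 2cos 6z`.  `CB 0` = columns for `i ≤ L` (zero for `c ≤ m`), `CB (π/6)` = rows,
`CI2` = columns for `i > L` (zero for `m ≤ c`).  `JV_har`: harmonicity for the product chain. -/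
namespace IP.Junc
open Polynomial

/-- `c = x^3 - 3x` -/
def cc (x : ℂ) : ℂ := x ^ 3 - 3 * x
noncomputable def xc (z : ℂ) : ℂ := 2 * Complex.cos (2 * z)
noncomputable def xpc (z : ℂ) : ℂ := 2 * Complex.cos (2 * z + 2 * (Real.pi : ℂ) / 3)
noncomputable def xmc (z : ℂ) : ℂ := 2 * Complex.cos (2 * z - 2 * (Real.pi : ℂ) / 3)
/-- the derivative of `xmc` -/
noncomputable def xmd (z : ℂ) : ℂ := -(4 * Complex.sin (2 * z - 2 * (Real.pi : ℂ) / 3))
/-- the element of width `2m+1`, vanishing to order `2m+1` at `x = 2` -/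
noncomputable def fe (m : ℕ) (x : ℂ) : ℂ := (FP m).eval (cc x) + (FQ m).eval (cc x) * x
/-- mirror image, vanishing at `x = -2` -/
noncomputable def ft (q : ℕ) (x : ℂ) : ℂ := (FPt q).eval (cc x) + (FQt q).eval (cc x) * x
noncomputable def HB (m c q : ℕ) (z : ℂ) : ℂ :=
  fe m (xc z) * fe c (xmc z) * ft q (xmc z) * xmd z / ((xc z - 1) * (cc (xc z) - 2) ^ (m + c + 1) * (cc (xc z) + 2) ^ q)
noncomputable def CB (z0 : ℂ) (m c q : ℕ) : ℂ :=
  (2 * Real.pi * Complex.I)⁻¹ * ∮ z in C(z0, 1 / 10), HB m c q z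
noncomputable def den (m c q : ℕ) (x : ℂ) : ℂ := (cc x - 2) ^ (m + c + 1) * (cc x + 2) ^ (q + 1)
noncomputable def N2 (m c q : ℕ) (x : ℂ) : ℂ :=
  fe c x * ((FP m).eval (cc x) + (FQ m).eval (cc x)) * ((FPt q).eval (cc x) + (FQt q).eval (cc x))
noncomputable def CI2 (m c q : ℕ) : ℂ :=
  (2 * Real.pi * Complex.I)⁻¹ * ∮ x in C(2, 1 / 2), N2 m c q x * (3 * x ^ 2 - 3) / den m c q x
noncomputable def CI (m c q : ℕ) : ℂ := CB 0 m c q + CB ((Real.pi / 6 : ℝ) : ℂ) m c q - CI2 m c q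
/-- the homogeneous crossing probability -/
noncomputable def JV (m c q : ℕ) : ℝ := 1 - (CI m c q).re

/-- the zero of order `2c+1` beats the pole -/
theorem CI2_zero {m c : ℕ} (h : m ≤ c) (q : ℕ) : CI2 m c q = 0 := by
  unfold CI2
  have h1 := ciz_CI2 h q (((FP m).comp (X ^ 3 - 3 * X) + (FQ m).comp (X ^ 3 - 3 * X)) *
    ((FPt q).comp (X ^ 3 - 3 * X) + (FQt q).comp (X ^ 3 - 3 * X)))
  have h2 : (fun x : ℂ => N2 m c q x * (3 * x ^ 2 - 3) / den m c q x) = fun x =>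
      (((FP c).eval (x ^ 3 - 3 * x) + (FQ c).eval (x ^ 3 - 3 * x) * x) *
        (((FP m).comp (X ^ 3 - 3 * X) + (FQ m).comp (X ^ 3 - 3 * X)) *
    ((FPt q).comp (X ^ 3 - 3 * X) + (FQt q).comp (X ^ 3 - 3 * X))).eval x) *
      (3 * x ^ 2 - 3) / ((x ^ 3 - 3 * x - 2) ^ (m + c + 1) * (x ^ 3 - 3 * x + 2) ^ (q + 1)) := by
    funext x
    simp only [N2, den, fe, cc, eval_mul, eval_add, eval_comp, eval_sub, eval_pow, eval_X, eval_ofNat]
    ring
  rw [h2, h1, mul_zero]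
/-- `fe m (xc z)` has a zero of order `2(2m+1)` at `z = 0`, the denominator of order `2(m+c+1)` -/
theorem CB0_zero {m c : ℕ} (h : c ≤ m) (q : ℕ) : CB 0 m c q = 0 := by
  unfold CB
  have hmc : Differentiable ℂ xmc := by unfold xmc; fun_prop
  have hmd : Differentiable ℂ xmd := by unfold xmd; fun_prop
  have hG : Differentiable ℂ (fun z => fe c (xmc z) * ft q (xmc z) * xmd z) := by
    have e : (fun z => fe c (xmc z) * ft q (xmc z) * xmd z) = fun z =>
        (((FP c).comp (X ^ 3 - 3 * X) + (FQ c).comp (X ^ 3 - 3 * X) * X) *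
          ((FPt q).comp (X ^ 3 - 3 * X) + (FQt q).comp (X ^ 3 - 3 * X) * X)).eval (xmc z) * xmd z := by
      funext z
      simp only [fe, ft, cc, eval_mul, eval_add, eval_comp, eval_sub, eval_pow, eval_X, eval_ofNat]
    rw [e]
    exact ((Polynomial.differentiable _).comp hmc).mul hmd
  have h1 := ciz_CB0 h q hG
  have h2 : (fun z : ℂ => HB m c q z) = fun z =>
      ((FP m).eval ((2 * Complex.cos (2 * z)) ^ 3 - 3 * (2 * Complex.cos (2 * z))) +
      (FQ m).eval ((2 * Complex.cos (2 * z)) ^ 3 - 3 * (2 * Complex.cos (2 * z))) * (2 * Complex.cos (2 * z))) *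
        (fe c (xmc z) * ft q (xmc z) * xmd z) /
      ((2 * Complex.cos (2 * z) - 1) * ((2 * Complex.cos (2 * z)) ^ 3 - 3 * (2 * Complex.cos (2 * z)) - 2) ^ (m + c + 1) *
        ((2 * Complex.cos (2 * z)) ^ 3 - 3 * (2 * Complex.cos (2 * z)) + 2) ^ q) := by
    funext z
    simp only [HB, xc, cc]
    rw [show fe m (2 * Complex.cos (2 * z)) * fe c (xmc z) * ft q (xmc z) * xmd z =
      fe m (2 * Complex.cos (2 * z)) * (fe c (xmc z) * ft q (xmc z) * xmd z) by ring]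
    rfl
  rw [show (∮ z in C(0, 1 / 10), HB m c q z) = 0 from h2 ▸ h1, mul_zero]

/-! ### harmonicity.  `K` in `m` multiplies `fe m / (c-2)^m` by `(c+2)/(c-2)` (`FP_rec`, `FQ_rec`),
`K` in `q` multiplies `ft q / (c+2)^q` by `(c-2)/(c+2)`; at `q = 0` (reflection) there is the additional constant `4/9`. -/

/-! auxiliary lemmas for the harmonicity (helper28) -/

theorem hb_fe_rec (m : ℕ) (x : ℂ) : (ku (m + 1) : ℂ) * fe (m + 2) x + (kd (m + 1) : ℂ) * (cc x - 2) ^ 2 * fe m x =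
    (((ku (m + 1) : ℂ) + kd (m + 1)) * (cc x - 2) + 4) * fe (m + 1) x := by
  have h1 := congrArg (fun p => p.eval (cc x)) (FP_rec m)
  have h2 := congrArg (fun p => p.eval (cc x)) (FQ_rec m)
  simp only [eval_add, eval_mul, eval_C, eval_X, eval_sub, eval_ofNat, eval_pow] at h1 h2
  unfold fe
  linear_combination h1 + x * h2

theorem hb_ft_rec (m : ℕ) (x : ℂ) : (ku (m + 1) : ℂ) * ft (m + 2) x + (kd (m + 1) : ℂ) * (cc x + 2) ^ 2 * ft m x =
    (((ku (m + 1) : ℂ) + kd (m + 1)) * (cc x + 2) - 4) * ft (m + 1) x := by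
  have h1 := congrArg (fun p => p.eval (cc x)) (FPt_rec m)
  have h2 := congrArg (fun p => p.eval (cc x)) (FQt_rec m)
  simp only [eval_add, eval_mul, eval_C, eval_X, eval_sub, eval_ofNat, eval_pow] at h1 h2
  unfold ft
  linear_combination h1 + x * h2

theorem hb_alg {u v E p F0 F1 F2 W k : ℂ} (hE : E ≠ 0) (hp : p ≠ 0)
    (h : u * F2 + v * E ^ 2 * F0 = ((u + v) * E + k) * F1) :
    F1 / (p * E) * W + u * (F2 / (p * E ^ 2) * W - F1 / (p * E) * W) + v * (F0 / p * W - F1 / (p * E) * W) =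
      (E + k) / E * (F1 / (p * E) * W) := by
  have e : F1 / (p * E) * W + u * (F2 / (p * E ^ 2) * W - F1 / (p * E) * W) + v * (F0 / p * W - F1 / (p * E) * W) -
      (E + k) / E * (F1 / (p * E) * W) = W / (p * E ^ 2) * (u * F2 + v * E ^ 2 * F0 - ((u + v) * E + k) * F1) := by
    field_simp
    ring
  rw [← sub_eq_zero, e, h, sub_self, mul_zero]

theorem hb_split_m (m c q : ℕ) (z : ℂ) : HB m c q z = fe m (xc z) / (cc (xc z) - 2) ^ (m + c + 1) *
    (fe c (xmc z) * ft q (xmc z) * xmd z / ((xc z - 1) * (cc (xc z) + 2) ^ q)) := by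
  unfold HB
  rw [show fe m (xc z) * fe c (xmc z) * ft q (xmc z) * xmd z = fe m (xc z) * (fe c (xmc z) * ft q (xmc z) * xmd z) by ring,
    show (xc z - 1) * (cc (xc z) - 2) ^ (m + c + 1) * (cc (xc z) + 2) ^ q =
      (cc (xc z) - 2) ^ (m + c + 1) * ((xc z - 1) * (cc (xc z) + 2) ^ q) by ring, mul_div_mul_comm]

theorem hb_split_q (m c q : ℕ) (z : ℂ) : HB m c q z = ft q (xmc z) / (cc (xc z) + 2) ^ q *
    (fe m (xc z) * fe c (xmc z) * xmd z / ((xc z - 1) * (cc (xc z) - 2) ^ (m + c + 1))) := by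
  unfold HB
  rw [show fe m (xc z) * fe c (xmc z) * ft q (xmc z) * xmd z = ft q (xmc z) * (fe m (xc z) * fe c (xmc z) * xmd z) by ring,
    show (xc z - 1) * (cc (xc z) - 2) ^ (m + c + 1) * (cc (xc z) + 2) ^ q =
      (cc (xc z) + 2) ^ q * ((xc z - 1) * (cc (xc z) - 2) ^ (m + c + 1)) by ring, mul_div_mul_comm]

theorem hb_cc (z : ℂ) : cc (xmc z) = cc (xc z) := by
  have h : cc (xmc z) = 2 * Complex.cos (3 * (2 * z - 2 * (Real.pi : ℂ) / 3)) := by
    unfold cc xmc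
    rw [Complex.cos_three_mul]
    ring
  have h2 : cc (xc z) = 2 * Complex.cos (6 * z) := by
    unfold cc xc
    rw [show (6 : ℂ) * z = 3 * (2 * z) by ring, Complex.cos_three_mul]
    ring
  rw [h, h2, show 3 * (2 * z - 2 * (Real.pi : ℂ) / 3) = 6 * z - 2 * Real.pi by ring, Complex.cos_sub_two_pi]

theorem HB_rec_m (m c q : ℕ) {z : ℂ} (h : cc (xc z) ≠ 2) :
    HB (m + 1) c q z + ku (m + 1) * (HB (m + 2) c q z - HB (m + 1) c q z) + kd (m + 1) * (HB m c q z - HB (m + 1) c q z) =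
      (cc (xc z) + 2) / (cc (xc z) - 2) * HB (m + 1) c q z := by
  have hE : cc (xc z) - 2 ≠ 0 := sub_ne_zero.2 h
  have hr := hb_fe_rec m (xc z)
  have e1 := hb_split_m (m + 1) c q z
  have e2 := hb_split_m (m + 2) c q z
  have e3 := hb_split_m m c q z
  rw [show m + 1 + c + 1 = m + c + 1 + 1 by ring, pow_succ] at e1
  rw [show m + 2 + c + 1 = m + c + 1 + 2 by ring, pow_add] at e2
  have key := hb_alg (W := fe c (xmc z) * ft q (xmc z) * xmd z / ((xc z - 1) * (cc (xc z) + 2) ^ q)) hE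
    (pow_ne_zero (m + c + 1) hE) hr
  rw [← e1, ← e2, ← e3] at key
  rw [key, show cc (xc z) - 2 + 4 = cc (xc z) + 2 by ring]
theorem HB_rec_q (m c q : ℕ) {z : ℂ} (h : cc (xc z) ≠ -2) :
    HB m c (q + 1) z + ku (q + 1) * (HB m c (q + 2) z - HB m c (q + 1) z) + kd (q + 1) * (HB m c q z - HB m c (q + 1) z) =
      (cc (xc z) - 2) / (cc (xc z) + 2) * HB m c (q + 1) z := by
  have hE : cc (xc z) + 2 ≠ 0 := fun h' => h (by linear_combination h')
  have hr := hb_ft_rec q (xmc z)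
  rw [hb_cc] at hr
  have e1 := hb_split_q m c (q + 1) z
  have e2 := hb_split_q m c (q + 2) z
  have e3 := hb_split_q m c q z
  rw [pow_succ] at e1
  rw [pow_add] at e2
  have hr' : (ku (q + 1) : ℂ) * ft (q + 2) (xmc z) + (kd (q + 1) : ℂ) * (cc (xc z) + 2) ^ 2 * ft q (xmc z) =
      (((ku (q + 1) : ℂ) + kd (q + 1)) * (cc (xc z) + 2) + -4) * ft (q + 1) (xmc z) := by linear_combination hr
  have key := hb_alg (W := fe m (xc z) * fe c (xmc z) * xmd z / ((xc z - 1) * (cc (xc z) - 2) ^ (m + c + 1))) hE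
    (pow_ne_zero q hE) hr'
  rw [← e1, ← e2, ← e3] at key
  rw [key, show cc (xc z) + 2 + -4 = cc (xc z) - 2 by ring]
/-- the additional integrand at `q = 0` -/
noncomputable def HX (m c : ℕ) (z : ℂ) : ℂ :=
  fe m (xc z) * fe c (xmc z) * xmd z / ((xc z - 1) * (cc (xc z) - 2) ^ (m + c + 1))
theorem HB_rec_q0 (m c : ℕ) {z : ℂ} (h : cc (xc z) ≠ -2) :
    HB m c 0 z + ku 0 * (HB m c 1 z - HB m c 0 z) = (cc (xc z) - 2) / (cc (xc z) + 2) * HB m c 0 z + 4 / 9 * HX m c z := by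
  rw [hb_split_q m c 0, hb_split_q m c 1]
  have hE : cc (xc z) + 2 ≠ 0 := fun h' => h (by linear_combination h')
  have h0 : ft 0 (xmc z) = 2 + xmc z := by
    unfold ft
    rw [FPt_zero, FQt_zero]
    simp
  have h1 : ft 1 (xmc z) = 7 / 2 * cc (xc z) - 20 + (cc (xc z) - 23 / 2) * xmc z := by
    unfold ft
    rw [hb_cc, FQt_one]
    unfold FPt
    rw [FP_one]
    simp only [eval_neg, eval_mul, eval_C, eval_comp, eval_sub, eval_X, eval_ofNat]
    ring
  have hk : (ku 0 : ℂ) = 8 / 27 := by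
    unfold ku
    push_cast
    norm_num
  rw [h0, h1, hk]
  unfold HX
  generalize fe m (xc z) * fe c (xmc z) * xmd z / ((xc z - 1) * (cc (xc z) - 2) ^ (m + c + 1)) = W
  generalize cc (xc z) = D at hE
  field_simp
  ring
/-! auxiliary lemmas for `HX_six`, `HX_zero` (helper12) -/

theorem hx_fac (m : ℕ) : ∃ T : ℂ[X], ∀ x : ℂ, fe m x = (x - 2) ^ (2 * m + 1) * T.eval x := by
  obtain ⟨T, hT⟩ := F_dvd m
  refine ⟨T, fun x => ?_⟩
  have h := congrArg (fun p => p.eval x) hT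
  simp only [eval_add, eval_mul, eval_comp, eval_sub, eval_pow, eval_X, eval_C] at h
  unfold fe cc
  exact h

theorem hx_cc (z : ℂ) : cc (xc z) = 2 * Complex.cos (6 * z) := by
  unfold cc xc
  rw [show (6 : ℂ) * z = 3 * (2 * z) by ring, Complex.cos_three_mul]
  ring

theorem hx_xc : Differentiable ℂ xc := by
  unfold xc
  fun_prop
theorem hx_xmc : Differentiable ℂ xmc := by
  unfold xmc
  fun_prop
theorem hx_xmd : Differentiable ℂ xmd := by
  unfold xmd
  fun_prop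
theorem hx_ccd : Differentiable ℂ cc := by
  unfold cc
  fun_prop
theorem hx_fe (m : ℕ) : Differentiable ℂ (fe m) := by
  unfold fe
  exact ((FP m).differentiable.comp hx_ccd).add (((FQ m).differentiable.comp hx_ccd).mul differentiable_id)

/-- no zero of `cc (xc z) - 2` -/
theorem hx_ne2 {z : ℂ} (h : ∀ n : ℤ, 6 * z ≠ n * (2 * (Real.pi : ℂ))) : cc (xc z) - 2 ≠ 0 := by
  intro h1
  rw [hx_cc] at h1
  have h2 : Complex.cos (6 * z) = 1 := by linear_combination h1 / 2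
  obtain ⟨n, hn⟩ := Complex.cos_eq_one_iff.1 h2
  exact h n hn.symm

theorem hx_lat {z a : ℂ} {r : ℝ} (hz : ‖z - a‖ ≤ r) (hr : 6 * r < 1) (n : ℤ) (b : ℝ) (hb : 6 * a = b)
    (h : 6 * z = n * (2 * (Real.pi : ℂ))) : |(n : ℝ) * (2 * Real.pi) - b| < 1 := by
  have e : (6 : ℂ) * (z - a) = (((n : ℝ) * (2 * Real.pi) - b : ℝ) : ℂ) := by
    push_cast
    rw [mul_sub, h, hb]
  have h2 : ‖(6 : ℂ) * (z - a)‖ = 6 * ‖z - a‖ := by
    rw [norm_mul]
    norm_num
  rw [e, Complex.norm_real, Real.norm_eq_abs] at h2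
  rw [h2]
  linarith

/-- near `π / 6` -/
theorem hx_six_ne {z : ℂ} (hz : ‖z - ((Real.pi / 6 : ℝ) : ℂ)‖ ≤ 1 / 10) : cc (xc z) - 2 ≠ 0 := by
  refine hx_ne2 fun n hn => ?_
  have h := hx_lat hz (by norm_num) n Real.pi (by push_cast; ring) hn
  have hpi := Real.pi_gt_three
  rw [abs_lt] at h
  rcases le_or_gt n 0 with h0 | h0
  · have h1 : (n : ℝ) ≤ 0 := by exact_mod_cast h0
    nlinarith [h.1]
  · have h1 : (1 : ℝ) ≤ n := by exact_mod_cast h0
    nlinarith [h.2]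

/-- near `0` -/
theorem hx_zero_ne {z : ℂ} (hz : ‖z‖ ≤ 1 / 10) (h0 : z ≠ 0) : cc (xc z) - 2 ≠ 0 := by
  refine hx_ne2 fun n hn => ?_
  have hz' : ‖z - 0‖ ≤ 1 / 10 := by rwa [sub_zero]
  have h := hx_lat hz' (by norm_num) n 0 (by push_cast; ring) hn
  have hpi := Real.pi_gt_three
  rw [sub_zero, abs_lt] at h
  rcases lt_trichotomy n 0 with h1 | h1 | h1
  · have h2 : (n : ℝ) ≤ -1 := by exact_mod_cast (by omega : n ≤ -1)
    nlinarith [h.1]
  · rw [h1] at hn
    apply h0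
    simpa using hn
  · have h2 : (1 : ℝ) ≤ n := by exact_mod_cast (by omega : 1 ≤ n)
    nlinarith [h.2]

theorem hx_zero_m1 {z : ℂ} (hz : ‖z‖ ≤ 1 / 10) : xc z + 1 ≠ 0 := by
  intro h
  rcases eq_or_ne z 0 with h0 | h0
  · rw [h0] at h
    unfold xc at h
    norm_num at h
  · refine hx_zero_ne hz h0 ?_
    have : xc z = -1 := by linear_combination h
    rw [this]
    unfold cc
    norm_num

theorem hx_zero_1 {z : ℂ} (hz : ‖z‖ ≤ 1 / 10) : xc z - 1 ≠ 0 := by
  intro h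
  have h1 : xc z = 1 := by linear_combination h
  have h2 := hx_cc z
  rw [h1] at h2
  unfold cc at h2
  have h3 : Complex.cos (6 * z) = -1 := by linear_combination -h2 / 2
  obtain ⟨n, hn⟩ := Complex.cos_eq_neg_one_iff.1 h3
  have e : (6 : ℂ) * z = ((Real.pi + (n : ℝ) * (2 * Real.pi) : ℝ) : ℂ) := by
    rw [← hn]
    push_cast
    ring
  have h4 : ‖(6 : ℂ) * z‖ = 6 * ‖z‖ := by
    rw [norm_mul]
    norm_num
  rw [e, Complex.norm_real, Real.norm_eq_abs] at h4
  have h5 : |Real.pi + (n : ℝ) * (2 * Real.pi)| < 1 := by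
    rw [h4]
    linarith
  have hpi := Real.pi_gt_three
  rw [abs_lt] at h5
  rcases le_or_gt n (-1) with h0 | h0
  · have h1 : (n : ℝ) ≤ -1 := by exact_mod_cast h0
    nlinarith [h5.1]
  · have h1 : (0 : ℝ) ≤ n := by exact_mod_cast (by omega : 0 ≤ n)
    nlinarith [h5.2]

/-- no pole: `(c+2)/(x-1) = (x+2)(x-1)`, `x = xc z` -/
theorem HX_six (m c : ℕ) : (∮ z in C(((Real.pi / 6 : ℝ) : ℂ), 1 / 10), (cc (xc z) + 2) / (cc (xc z) - 2) * HX m c z) = 0 := by
  have e : ∀ z, (cc (xc z) + 2) / (cc (xc z) - 2) * HX m c z =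
      (xc z + 2) * (xc z - 1) * (fe m (xc z) * fe c (xmc z) * xmd z) / (cc (xc z) - 2) ^ (m + c + 2) := by
    intro z
    unfold HX
    have e1 : cc (xc z) + 2 = (xc z + 2) * (xc z - 1) ^ 2 := by
      unfold cc
      ring
    rw [e1, div_mul_div_comm]
    rcases eq_or_ne (xc z - 1) 0 with h | h
    · rw [h]
      simp
    · rcases eq_or_ne (cc (xc z) - 2) 0 with h2 | h2
      · rw [h2]
        simp
      · rw [div_eq_div_iff (mul_ne_zero h2 (mul_ne_zero h (pow_ne_zero _ h2))) (pow_ne_zero _ h2)]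
        ring
  rw [circleIntegral.integral_congr (by norm_num) (fun z _ => e z)]
  refine Complex.circleIntegral_eq_zero_of_differentiable_on_off_countable (by norm_num) Set.countable_empty ?_ ?_
  · intro z hz
    rw [Metric.mem_closedBall, dist_eq_norm] at hz
    have h := hx_six_ne hz
    refine ContinuousAt.continuousWithinAt (DifferentiableAt.continuousAt (𝕜 := ℂ) ?_)
    exact DifferentiableAt.div (((((hx_xc z).add_const 2).mul ((hx_xc z).sub_const 1))).mul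
      ((((hx_fe m (xc z)).comp z (hx_xc z)).mul ((hx_fe c (xmc z)).comp z (hx_xmc z))).mul (hx_xmd z)))
      ((((hx_ccd (xc z)).comp z (hx_xc z)).sub_const 2).pow _) (pow_ne_zero _ h)
  · intro z hz
    have hz := hz.1
    rw [Metric.mem_ball, dist_eq_norm] at hz
    have h := hx_six_ne hz.le
    exact DifferentiableAt.div (((((hx_xc z).add_const 2).mul ((hx_xc z).sub_const 1))).mul
      ((((hx_fe m (xc z)).comp z (hx_xc z)).mul ((hx_fe c (xmc z)).comp z (hx_xmc z))).mul (hx_xmd z)))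
      ((((hx_ccd (xc z)).comp z (hx_xc z)).sub_const 2).pow _) (pow_ne_zero _ h)

/-- the substitution `z → -z` -/
theorem hx_neg (g : ℂ → ℂ) (R : ℝ) : (∮ z in C(0, R), g (-z)) = -∮ z in C(0, R), g z := by
  simp only [circleIntegral, deriv_circleMap, smul_eq_mul]
  set F : ℝ → ℂ := fun θ => circleMap 0 R θ * Complex.I * g (circleMap 0 R θ) with hF
  have hp : Function.Periodic F (2 * Real.pi) := by
    intro θ
    simp only [hF, periodic_circleMap 0 R θ]
  have h1 : ∀ θ : ℝ, circleMap 0 R θ * Complex.I * g (-circleMap 0 R θ) = -F (θ + Real.pi) := by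
    intro θ
    have h2 : circleMap 0 R (θ + Real.pi) = -circleMap 0 R θ := by
      simp only [circleMap]
      push_cast
      rw [add_mul, Complex.exp_add, Complex.exp_pi_mul_I]
      ring
    simp only [hF, h2]
    ring
  have h3 : (∫ θ in (0 : ℝ)..2 * Real.pi, circleMap 0 R θ * Complex.I * g (-circleMap 0 R θ)) =
      ∫ θ in (0 : ℝ)..2 * Real.pi, -F (θ + Real.pi) :=
    intervalIntegral.integral_congr fun θ _ => h1 θ
  rw [h3, intervalIntegral.integral_neg, intervalIntegral.integral_comp_add_right (fun θ => F θ)]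
  congr 1
  have h4 := hp.intervalIntegral_add_eq (0 + Real.pi) 0
  rw [show (0 : ℝ) + Real.pi + 2 * Real.pi = 2 * Real.pi + Real.pi by ring, zero_add (2 * Real.pi)] at h4
  exact h4

theorem hx_xmc_neg (z : ℂ) : xmc (-z) = xpc z := by
  unfold xmc xpc
  rw [← Complex.cos_neg]
  congr 2
  ring
theorem hx_xc_neg (z : ℂ) : xc (-z) = xc z := by
  unfold xc
  rw [← Complex.cos_neg]
  congr 2
  ring
noncomputable def hx_xpd (z : ℂ) : ℂ := -(4 * Complex.sin (2 * z + 2 * (Real.pi : ℂ) / 3))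
noncomputable def hx_xcd (z : ℂ) : ℂ := -(4 * Complex.sin (2 * z))
theorem hx_xmd_neg (z : ℂ) : xmd (-z) = -hx_xpd z := by
  unfold xmd hx_xpd
  rw [← neg_neg (Complex.sin (2 * -z - 2 * (Real.pi : ℂ) / 3)), ← Complex.sin_neg,
    show -(2 * -z - 2 * (Real.pi : ℂ) / 3) = 2 * z + 2 * (Real.pi : ℂ) / 3 by ring]
  ring

theorem hx_cc_m (z : ℂ) : cc (xmc z) = cc (xc z) := by
  rw [hx_cc]
  have h : cc (xmc z) = 2 * Complex.cos (3 * (2 * z - 2 * (Real.pi : ℂ) / 3)) := by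
    unfold cc xmc
    rw [Complex.cos_three_mul]
    ring
  rw [h, show 3 * (2 * z - 2 * (Real.pi : ℂ) / 3) = 6 * z - 2 * Real.pi by ring, Complex.cos_sub_two_pi]
theorem hx_cc_p (z : ℂ) : cc (xpc z) = cc (xc z) := by
  rw [hx_cc]
  have h : cc (xpc z) = 2 * Complex.cos (3 * (2 * z + 2 * (Real.pi : ℂ) / 3)) := by
    unfold cc xpc
    rw [Complex.cos_three_mul]
    ring
  rw [h, show 3 * (2 * z + 2 * (Real.pi : ℂ) / 3) = 6 * z + 2 * Real.pi by ring, Complex.cos_add_two_pi]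

theorem hx_cos : Complex.cos (2 * (Real.pi : ℂ) / 3) = -1 / 2 := by
  have h : Real.cos (2 * Real.pi / 3) = -1 / 2 := by
    rw [show 2 * Real.pi / 3 = Real.pi - Real.pi / 3 by ring, Real.cos_pi_sub, Real.cos_pi_div_three]
    norm_num
  have h2 := congrArg (fun t : ℝ => (t : ℂ)) h
  push_cast at h2
  exact h2
theorem hx_sin : Complex.sin (2 * (Real.pi : ℂ) / 3) ^ 2 = 3 / 4 := by
  have h := Complex.sin_sq_add_cos_sq (2 * (Real.pi : ℂ) / 3)
  rw [hx_cos] at h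
  linear_combination h

/-- the sum over the three roots -/
theorem hx_sum (c : ℕ) (z : ℂ) :
    fe c (xmc z) * xmd z + fe c (xpc z) * hx_xpd z + fe c (xc z) * hx_xcd z = 0 := by
  have h1 : xmd z + hx_xpd z + hx_xcd z = 0 := by
    unfold xmd hx_xpd hx_xcd
    rw [Complex.sin_sub, Complex.sin_add, hx_cos]
    ring
  have h2 : xmc z * xmd z + xpc z * hx_xpd z + xc z * hx_xcd z = 0 := by
    unfold xmd hx_xpd hx_xcd xmc xpc xc
    rw [Complex.sin_sub, Complex.sin_add, Complex.cos_sub, Complex.cos_add, hx_cos]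
    linear_combination 16 * Complex.cos (2 * z) * Complex.sin (2 * z) * hx_sin
  unfold fe
  rw [hx_cc_m, hx_cc_p]
  linear_combination (FP c).eval (cc (xc z)) * h1 + (FQ c).eval (cc (xc z)) * h2

theorem hx_alg {x A B P M D Tm Tc s1 s2 s3 f2 : ℂ} {m c : ℕ} (h1 : x - 1 ≠ 0) (h2 : x - 2 ≠ 0) (h3 : x + 1 ≠ 0)
    (hA : A = (x - 2) ^ (2 * m + 1) * Tm) (hB : B = (x - 2) ^ (2 * c + 1) * Tc)
    (hD : D - 2 = (x - 2) * (x + 1) ^ 2) (hs : M * s1 + P * s2 + B * s3 = 0) (hf : f2 = -s2) :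
    (D + 2) / (D - 2) * (A * M * s1 / ((x - 1) * (D - 2) ^ (m + c + 1))) -
      (D + 2) / (D - 2) * (A * P * f2 / ((x - 1) * (D - 2) ^ (m + c + 1))) =
    -((D + 2) * (x - 2) ^ (m + c) * (Tm * Tc) * s3) / ((x - 1) * (x + 1) ^ (2 * (m + c + 2))) := by
  have hD0 : D - 2 ≠ 0 := by
    rw [hD]
    exact mul_ne_zero h2 (pow_ne_zero _ h3)
  have e1 : (D + 2) / (D - 2) * (A * M * s1 / ((x - 1) * (D - 2) ^ (m + c + 1))) -
      (D + 2) / (D - 2) * (A * P * f2 / ((x - 1) * (D - 2) ^ (m + c + 1))) =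
      (D + 2) * A * (M * s1 + P * s2) / ((x - 1) * (D - 2) ^ (m + c + 2)) := by
    rw [hf, div_mul_div_comm, div_mul_div_comm, ← sub_div, div_eq_div_iff (mul_ne_zero hD0
      (mul_ne_zero h1 (pow_ne_zero _ hD0))) (mul_ne_zero h1 (pow_ne_zero _ hD0))]
    ring
  have e2 : M * s1 + P * s2 = -(B * s3) := by linear_combination hs
  rw [e1, e2, div_eq_div_iff (mul_ne_zero h1 (pow_ne_zero _ hD0)) (mul_ne_zero h1 (pow_ne_zero _ h3)), hA, hB, hD]
  generalize x - 2 = u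
  generalize x + 1 = v
  ring

/-- even part in `z`: `fe c (xmc z) xmd z + (the same at -z, -) = -fe c (xc z) * (derivative of xc)`, no pole -/
theorem HX_zero (m c : ℕ) : (∮ z in C(0, 1 / 10), (cc (xc z) + 2) / (cc (xc z) - 2) * HX m c z) = 0 := by
  set g : ℂ → ℂ := fun z => (cc (xc z) + 2) / (cc (xc z) - 2) * HX m c z with hg
  obtain ⟨Tm, hTm⟩ := hx_fac m
  obtain ⟨Tc, hTc⟩ := hx_fac c
  have hcz : ∀ z ∈ Metric.sphere (0 : ℂ) (1 / 10), ‖z‖ ≤ 1 / 10 ∧ z ≠ 0 := by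
    intro z hz
    rw [Metric.mem_sphere, dist_eq_norm, sub_zero] at hz
    refine ⟨hz.le, fun h => ?_⟩
    rw [h, norm_zero] at hz
    norm_num at hz
  have e : ∀ z ∈ Metric.sphere (0 : ℂ) (1 / 10), g z - g (-z) =
      -((cc (xc z) + 2) * (xc z - 2) ^ (m + c) * (Tm.eval (xc z) * Tc.eval (xc z)) * hx_xcd z) /
        ((xc z - 1) * (xc z + 1) ^ (2 * (m + c + 2))) := by
    intro z hz
    obtain ⟨hz1, hz2⟩ := hcz z hz
    have hD : cc (xc z) - 2 = (xc z - 2) * (xc z + 1) ^ 2 := by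
      unfold cc
      ring
    have h2 : xc z - 2 ≠ 0 := by
      intro h
      apply hx_zero_ne hz1 hz2
      rw [hD, h, zero_mul]
    simp only [hg]
    unfold HX
    rw [hx_xc_neg, hx_xmc_neg]
    exact hx_alg (hx_zero_1 hz1) h2 (hx_zero_m1 hz1) (hTm _) (hTc _) hD (hx_sum c z) (hx_xmd_neg z)
  have hxcd : Differentiable ℂ hx_xcd := by
    unfold hx_xcd
    fun_prop
  have hz0 : (∮ z in C(0, 1 / 10), (g z - g (-z))) = 0 := by
    rw [circleIntegral.integral_congr (by norm_num) e]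
    have key : ∀ z : ℂ, ‖z‖ ≤ 1 / 10 → DifferentiableAt ℂ (fun z =>
        -((cc (xc z) + 2) * (xc z - 2) ^ (m + c) * (Tm.eval (xc z) * Tc.eval (xc z)) * hx_xcd z) /
        ((xc z - 1) * (xc z + 1) ^ (2 * (m + c + 2)))) z := by
      intro z hz
      exact DifferentiableAt.div (((((((hx_ccd (xc z)).comp z (hx_xc z)).add_const 2).mul
        (((hx_xc z).sub_const 2).pow _)).mul ((Tm.differentiable.differentiableAt.comp z (hx_xc z)).mul
        (Tc.differentiable.differentiableAt.comp z (hx_xc z)))).mul (hxcd z)).neg)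
        (((hx_xc z).sub_const 1).mul (((hx_xc z).add_const 1).pow _))
        (mul_ne_zero (hx_zero_1 hz) (pow_ne_zero _ (hx_zero_m1 hz)))
    refine Complex.circleIntegral_eq_zero_of_differentiable_on_off_countable (by norm_num) Set.countable_empty ?_ ?_
    · intro z hz
      rw [Metric.mem_closedBall, dist_eq_norm, sub_zero] at hz
      exact (key z hz).continuousAt.continuousWithinAt
    · intro z hz
      have hz := hz.1
      rw [Metric.mem_ball, dist_eq_norm, sub_zero] at hz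
      exact key z hz.le
  have hgc : ContinuousOn g (Metric.sphere 0 (1 / 10)) := by
    intro z hz
    obtain ⟨hz1, hz2⟩ := hcz z hz
    refine ContinuousAt.continuousWithinAt (DifferentiableAt.continuousAt (𝕜 := ℂ) ?_)
    simp only [hg]
    unfold HX
    have hD := hx_zero_ne hz1 hz2
    have hc := (hx_ccd (xc z)).comp z (hx_xc z)
    exact ((hc.add_const 2).div (hc.sub_const 2) hD).mul
      (((((hx_fe m (xc z)).comp z (hx_xc z)).mul ((hx_fe c (xmc z)).comp z (hx_xmc z))).mul (hx_xmd z)).div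
      (((hx_xc z).sub_const 1).mul ((hc.sub_const 2).pow _))
      (mul_ne_zero (hx_zero_1 hz1) (pow_ne_zero _ hD)))
  have hgn : ContinuousOn (fun z => g (-z)) (Metric.sphere 0 (1 / 10)) := by
    refine hgc.comp continuous_neg.continuousOn fun z hz => ?_
    rw [mem_sphere_zero_iff_norm] at hz ⊢
    rwa [norm_neg]
  rw [circleIntegral.integral_sub (hgc.circleIntegrable (by norm_num)) (hgn.circleIntegrable (by norm_num)),
    hx_neg] at hz0
  have : (2 : ℂ) * ∮ z in C(0, 1 / 10), g z = 0 := by linear_combination hz0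
  exact (mul_eq_zero.1 this).resolve_left two_ne_zero
/-- complex version of `KK` -/
noncomputable def KC (g : ℕ → ℂ) (m : ℕ) : ℂ := g m + (ku m : ℂ) * (g (m + 1) - g m) + (kd m : ℂ) * (g (m - 1) - g m)

theorem kc_re (g : ℕ → ℂ) (m : ℕ) : (KC g m).re = KK (fun n => (g n).re) m := by
  unfold KC KK
  simp only [Complex.add_re, Complex.sub_re, Complex.re_ofReal_mul]

theorem kc_congr {f g : ℕ → ℂ} (h : ∀ n, f n = g n) (m : ℕ) : KC f m = KC g m := by
  have : f = g := funext h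
  rw [this]

theorem kc_add (f g : ℕ → ℂ) (m : ℕ) : KC (fun n => f n + g n) m = KC f m + KC g m := by
  unfold KC
  ring
theorem kc_sub (f g : ℕ → ℂ) (m : ℕ) : KC (fun n => f n - g n) m = KC f m - KC g m := by
  unfold KC
  ring
theorem kc_mul (a : ℂ) (f : ℕ → ℂ) (m : ℕ) : KC (fun n => a * f n) m = a * KC f m := by
  unfold KC
  ring
theorem kc_const (a : ℂ) (m : ℕ) : KC (fun _ => a) m = a := by
  unfold KC
  ring

theorem kc_lin (g : ℕ → ℂ) (m : ℕ) : KC g m = (1 - (ku m : ℂ) - (kd m : ℂ)) * g m + ((ku m : ℂ) * g (m + 1) + (kd m : ℂ) * g (m - 1)) := by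
  unfold KC
  ring

theorem kc_ci {F : ℕ → ℂ → ℂ} {c : ℂ} {R : ℝ} (h : ∀ n, CircleIntegrable (F n) c R) (m : ℕ) :
    CircleIntegrable (fun z => KC (fun n => F n z) m) c R := by
  have e : (fun z => KC (fun n => F n z) m) = (((1 - (ku m : ℂ) - (kd m : ℂ)) • F m) +
      (((ku m : ℂ) • F (m + 1)) + ((kd m : ℂ) • F (m - 1)))) := by
    funext z
    simp only [kc_lin, Pi.add_apply, Pi.smul_apply, smul_eq_mul]
  rw [e]
  exact ((h m).const_smul).add (((h (m + 1)).const_smul).add ((h (m - 1)).const_smul))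

theorem kc_int {F : ℕ → ℂ → ℂ} {c : ℂ} {R : ℝ} (h : ∀ n, CircleIntegrable (F n) c R) (m : ℕ) :
    (∮ z in C(c, R), KC (fun n => F n z) m) = KC (fun n => ∮ z in C(c, R), F n z) m := by
  have h1 : ∀ (a : ℂ) n, CircleIntegrable (fun z => a * F n z) c R := fun a n => (h n).const_smul
  have e : (fun z => KC (fun n => F n z) m) = fun z => (1 - (ku m : ℂ) - (kd m : ℂ)) * F m z +
      ((ku m : ℂ) * F (m + 1) z + (kd m : ℂ) * F (m - 1) z) := by
    funext z
    rw [kc_lin]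
  have i1 := circleIntegral.integral_add (h1 (ku m : ℂ) (m + 1)) (h1 (kd m : ℂ) (m - 1))
  have i2 := circleIntegral.integral_add (h1 (1 - (ku m : ℂ) - (kd m : ℂ)) m) ((h1 (ku m : ℂ) (m + 1)).add (h1 (kd m : ℂ) (m - 1)))
  simp only [circleIntegral.integral_const_mul, Pi.add_apply] at i1 i2
  rw [e, i2, i1, kc_lin]

/-- the two fold version -/
theorem kc_int2 {F : ℕ → ℕ → ℂ → ℂ} {c : ℂ} {R : ℝ} (h : ∀ m q, CircleIntegrable (F m q) c R) (m q : ℕ) :
    (∮ z in C(c, R), KC (fun m' => KC (fun q' => F m' q' z) q) m) =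
      KC (fun m' => KC (fun q' => ∮ z in C(c, R), F m' q' z) q) m := by
  rw [kc_int (F := fun m' z => KC (fun q' => F m' q' z) q) (fun m' => kc_ci (h m') q)]
  exact kc_congr (fun m' => kc_int (h m') q) m

/-- no zero of `cc (xc z) + 2` -/
theorem hb_nep {z : ℂ} (h : ∀ n : ℤ, 6 * z ≠ Real.pi + n * (2 * (Real.pi : ℂ))) : cc (xc z) ≠ -2 := by
  intro h1
  rw [hx_cc] at h1
  have h2 : Complex.cos (6 * z) = -1 := by linear_combination h1 / 2
  obtain ⟨n, hn⟩ := Complex.cos_eq_neg_one_iff.1 h2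
  exact h n hn.symm

theorem hb_lat {z a : ℂ} {r : ℝ} (hz : ‖z - a‖ ≤ r) (hr : 6 * r < 1) (n : ℤ) (b : ℝ) (hb : 6 * a = b)
    (h : 6 * z = Real.pi + n * (2 * (Real.pi : ℂ))) : |Real.pi + (n : ℝ) * (2 * Real.pi) - b| < 1 := by
  have e : (6 : ℂ) * (z - a) = ((Real.pi + (n : ℝ) * (2 * Real.pi) - b : ℝ) : ℂ) := by
    push_cast
    rw [mul_sub, h, hb]
  have h2 : ‖(6 : ℂ) * (z - a)‖ = 6 * ‖z - a‖ := by
    rw [norm_mul]
    norm_num
  rw [e, Complex.norm_real, Real.norm_eq_abs] at h2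
  rw [h2]
  linarith

theorem hb_zero_nep {z : ℂ} (hz : ‖z‖ ≤ 1 / 10) : cc (xc z) ≠ -2 := by
  refine hb_nep fun n hn => ?_
  have hz' : ‖z - 0‖ ≤ 1 / 10 := by rwa [sub_zero]
  have h := hb_lat hz' (by norm_num) n 0 (by push_cast; ring) hn
  have hpi := Real.pi_gt_three
  rw [sub_zero, abs_lt] at h
  rcases le_or_gt n (-1) with h0 | h0
  · have h1 : (n : ℝ) ≤ -1 := by exact_mod_cast h0
    nlinarith [h.1]
  · have h1 : (0 : ℝ) ≤ n := by exact_mod_cast (by omega : 0 ≤ n)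
    nlinarith [h.2]

theorem hb_six_nep {z : ℂ} (hz : ‖z - ((Real.pi / 6 : ℝ) : ℂ)‖ ≤ 1 / 10) (h0 : z ≠ ((Real.pi / 6 : ℝ) : ℂ)) : cc (xc z) ≠ -2 := by
  refine hb_nep fun n hn => ?_
  have h := hb_lat hz (by norm_num) n Real.pi (by push_cast; ring) hn
  have hpi := Real.pi_gt_three
  rw [abs_lt] at h
  rcases lt_trichotomy n 0 with h1 | h1 | h1
  · have h2 : (n : ℝ) ≤ -1 := by exact_mod_cast (by omega : n ≤ -1)
    nlinarith [h.1]
  · rw [h1] at hn
    apply h0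
    push_cast at hn ⊢
    linear_combination hn / 6
  · have h2 : (1 : ℝ) ≤ n := by exact_mod_cast (by omega : 1 ≤ n)
    nlinarith [h.2]

theorem hb_ne1 {z : ℂ} (h : cc (xc z) ≠ -2) : xc z - 1 ≠ 0 := by
  intro h1
  apply h
  have : xc z = 1 := by linear_combination h1
  rw [this]
  unfold cc
  norm_num

theorem hb_ft (q : ℕ) : Differentiable ℂ (ft q) := by
  unfold ft
  exact ((FPt q).differentiable.comp hx_ccd).add (((FQt q).differentiable.comp hx_ccd).mul differentiable_id)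

theorem hb_cont {z0 : ℂ} (h2 : ∀ z ∈ Metric.sphere z0 (1 / 10), cc (xc z) ≠ 2)
    (h3 : ∀ z ∈ Metric.sphere z0 (1 / 10), cc (xc z) ≠ -2) (m c q : ℕ) :
    CircleIntegrable (HB m c q) z0 (1 / 10) := by
  refine ContinuousOn.circleIntegrable (by norm_num) fun z hz => ?_
  have hc := (hx_ccd (xc z)).comp z (hx_xc z)
  have k2 : cc (xc z) - 2 ≠ 0 := sub_ne_zero.2 (h2 z hz)
  have k3 : cc (xc z) + 2 ≠ 0 := fun h => h3 z hz (by linear_combination h)
  refine ContinuousAt.continuousWithinAt (DifferentiableAt.continuousAt (𝕜 := ℂ) ?_)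
  unfold HB
  exact (((((hx_fe m (xc z)).comp z (hx_xc z)).mul ((hx_fe c (xmc z)).comp z (hx_xmc z))).mul
    ((hb_ft q (xmc z)).comp z (hx_xmc z))).mul (hx_xmd z)).div
    ((((hx_xc z).sub_const 1).mul ((hc.sub_const 2).pow _)).mul ((hc.add_const 2).pow _))
    (mul_ne_zero (mul_ne_zero (hb_ne1 (h3 z hz)) (pow_ne_zero _ k2)) (pow_ne_zero _ k3))

theorem hb_hx_cont {z0 : ℂ} (h2 : ∀ z ∈ Metric.sphere z0 (1 / 10), cc (xc z) ≠ 2)
    (h3 : ∀ z ∈ Metric.sphere z0 (1 / 10), cc (xc z) ≠ -2) (m c : ℕ) :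
    CircleIntegrable (fun z => (cc (xc z) + 2) / (cc (xc z) - 2) * HX m c z) z0 (1 / 10) := by
  refine ContinuousOn.circleIntegrable (by norm_num) fun z hz => ?_
  have hc := (hx_ccd (xc z)).comp z (hx_xc z)
  have k2 : cc (xc z) - 2 ≠ 0 := sub_ne_zero.2 (h2 z hz)
  refine ContinuousAt.continuousWithinAt (DifferentiableAt.continuousAt (𝕜 := ℂ) ?_)
  unfold HX
  exact ((hc.add_const 2).div (hc.sub_const 2) k2).mul
      (((((hx_fe m (xc z)).comp z (hx_xc z)).mul ((hx_fe c (xmc z)).comp z (hx_xmc z))).mul (hx_xmd z)).div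
      (((hx_xc z).sub_const 1).mul ((hc.sub_const 2).pow _))
      (mul_ne_zero (hb_ne1 (h3 z hz)) (pow_ne_zero _ k2)))

theorem hb_sph0 : (∀ z ∈ Metric.sphere (0 : ℂ) (1 / 10), cc (xc z) ≠ 2) ∧ ∀ z ∈ Metric.sphere (0 : ℂ) (1 / 10), cc (xc z) ≠ -2 := by
  have h : ∀ z ∈ Metric.sphere (0 : ℂ) (1 / 10), ‖z‖ ≤ 1 / 10 ∧ z ≠ 0 := by
    intro z hz
    rw [Metric.mem_sphere, dist_eq_norm, sub_zero] at hz
    refine ⟨hz.le, fun h => ?_⟩
    rw [h, norm_zero] at hz
    norm_num at hz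
  exact ⟨fun z hz => sub_ne_zero.1 (hx_zero_ne (h z hz).1 (h z hz).2), fun z hz => hb_zero_nep (h z hz).1⟩

theorem hb_sph6 : (∀ z ∈ Metric.sphere (((Real.pi / 6 : ℝ) : ℂ)) (1 / 10), cc (xc z) ≠ 2) ∧
    ∀ z ∈ Metric.sphere (((Real.pi / 6 : ℝ) : ℂ)) (1 / 10), cc (xc z) ≠ -2 := by
  have h : ∀ z ∈ Metric.sphere (((Real.pi / 6 : ℝ) : ℂ)) (1 / 10), ‖z - ((Real.pi / 6 : ℝ) : ℂ)‖ ≤ 1 / 10 ∧ z ≠ ((Real.pi / 6 : ℝ) : ℂ) := by
    intro z hz
    rw [Metric.mem_sphere, dist_eq_norm] at hz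
    refine ⟨hz.le, fun h => ?_⟩
    rw [h, sub_self, norm_zero] at hz
    norm_num at hz
  exact ⟨fun z hz => sub_ne_zero.1 (hx_six_ne (h z hz).1), fun z hz => hb_six_nep (h z hz).1 (h z hz).2⟩

theorem hb_kc_m (m c q : ℕ) {z : ℂ} (h : cc (xc z) ≠ 2) :
    KC (fun m' => HB m' c q z) (m + 1) = (cc (xc z) + 2) / (cc (xc z) - 2) * HB (m + 1) c q z := by
  have := HB_rec_m m c q h
  unfold KC
  rw [Nat.add_sub_cancel]
  exact this
theorem hb_kc_q (m c q : ℕ) {z : ℂ} (h : cc (xc z) ≠ -2) :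
    KC (fun q' => HB m c q' z) (q + 1) = (cc (xc z) - 2) / (cc (xc z) + 2) * HB m c (q + 1) z := by
  have := HB_rec_q m c q h
  unfold KC
  rw [Nat.add_sub_cancel]
  exact this
theorem hb_kc_q0 (m c : ℕ) {z : ℂ} (h : cc (xc z) ≠ -2) :
    KC (fun q' => HB m c q' z) 0 = (cc (xc z) - 2) / (cc (xc z) + 2) * HB m c 0 z + 4 / 9 * HX m c z := by
  have := HB_rec_q0 m c h
  unfold KC
  rw [Nat.zero_sub, zero_add, sub_self, mul_zero, add_zero]
  exact this

/-- `HX` is `HB` with `q = 0` and `ft 0` replaced by `1` -/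
theorem hb_kc_hx (m c : ℕ) {z : ℂ} (h : cc (xc z) ≠ 2) :
    KC (fun m' => HX m' c z) (m + 1) = (cc (xc z) + 2) / (cc (xc z) - 2) * HX (m + 1) c z := by
  have hE : cc (xc z) - 2 ≠ 0 := sub_ne_zero.2 h
  have hr := hb_fe_rec m (xc z)
  have e : ∀ m, HX m c z = fe m (xc z) / (cc (xc z) - 2) ^ (m + c + 1) * (fe c (xmc z) * xmd z / (xc z - 1)) := by
    intro m
    unfold HX
    rw [show fe m (xc z) * fe c (xmc z) * xmd z = fe m (xc z) * (fe c (xmc z) * xmd z) by ring,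
      mul_comm (xc z - 1), mul_div_mul_comm]
  have e1 := e (m + 1)
  have e2 := e (m + 2)
  have e3 := e m
  rw [show m + 1 + c + 1 = m + c + 1 + 1 by ring, pow_succ] at e1
  rw [show m + 2 + c + 1 = m + c + 1 + 2 by ring, pow_add] at e2
  have key := hb_alg (W := fe c (xmc z) * xmd z / (xc z - 1)) hE (pow_ne_zero (m + c + 1) hE) hr
  rw [← e1, ← e2, ← e3] at key
  unfold KC
  rw [Nat.add_sub_cancel, key, show cc (xc z) - 2 + 4 = cc (xc z) + 2 by ring]

theorem hb_cb_q {z0 : ℂ} (h2 : ∀ z ∈ Metric.sphere z0 (1 / 10), cc (xc z) ≠ 2)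
    (h3 : ∀ z ∈ Metric.sphere z0 (1 / 10), cc (xc z) ≠ -2) (m c q : ℕ) :
    KC (fun m' => KC (fun q' => CB z0 m' c q') (q + 1)) (m + 1) = CB z0 (m + 1) c (q + 1) := by
  unfold CB
  simp only [kc_mul]
  rw [← kc_int2 (F := fun m' q' z => HB m' c q' z) (fun m q => hb_cont h2 h3 m c q)]
  congr 1
  refine circleIntegral.integral_congr (by norm_num) fun z hz => ?_
  have k2 : cc (xc z) - 2 ≠ 0 := sub_ne_zero.2 (h2 z hz)
  have k3 : cc (xc z) + 2 ≠ 0 := fun h => h3 z hz (by linear_combination h)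
  show KC (fun m' => KC (fun q' => HB m' c q' z) (q + 1)) (m + 1) = HB (m + 1) c (q + 1) z
  simp only [hb_kc_q _ _ _ (h3 z hz), kc_mul]
  rw [hb_kc_m _ _ _ (h2 z hz), ← mul_assoc, div_mul_div_comm, mul_comm (cc (xc z) - 2),
    mul_comm (cc (xc z) + 2) (cc (xc z) - 2), div_self (mul_ne_zero k2 k3), one_mul]

theorem hb_cb_q0 {z0 : ℂ} (h2 : ∀ z ∈ Metric.sphere z0 (1 / 10), cc (xc z) ≠ 2)
    (h3 : ∀ z ∈ Metric.sphere z0 (1 / 10), cc (xc z) ≠ -2) (m c : ℕ)
    (hX : (∮ z in C(z0, 1 / 10), (cc (xc z) + 2) / (cc (xc z) - 2) * HX (m + 1) c z) = 0) :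
    KC (fun m' => KC (fun q' => CB z0 m' c q') 0) (m + 1) = CB z0 (m + 1) c 0 := by
  unfold CB
  simp only [kc_mul]
  rw [← kc_int2 (F := fun m' q' z => HB m' c q' z) (fun m q => hb_cont h2 h3 m c q)]
  congr 1
  have e : ∀ z ∈ Metric.sphere z0 (1 / 10), KC (fun m' => KC (fun q' => HB m' c q' z) 0) (m + 1) =
      HB (m + 1) c 0 z + 4 / 9 * ((cc (xc z) + 2) / (cc (xc z) - 2) * HX (m + 1) c z) := by
    intro z hz
    have k2 : cc (xc z) - 2 ≠ 0 := sub_ne_zero.2 (h2 z hz)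
    have k3 : cc (xc z) + 2 ≠ 0 := fun h => h3 z hz (by linear_combination h)
    simp only [hb_kc_q0 _ _ (h3 z hz), kc_mul, kc_add]
    rw [hb_kc_m _ _ _ (h2 z hz), hb_kc_hx _ _ (h2 z hz), ← mul_assoc, div_mul_div_comm, mul_comm (cc (xc z) - 2),
      mul_comm (cc (xc z) + 2) (cc (xc z) - 2), div_self (mul_ne_zero k2 k3), one_mul]
  have i1 := circleIntegral.integral_add (hb_cont h2 h3 (m + 1) c 0)
    ((hb_hx_cont h2 h3 (m + 1) c).const_smul (a := (4 / 9 : ℂ)))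
  simp only [Pi.smul_apply, smul_eq_mul, circleIntegral.integral_const_mul, hX, mul_zero, add_zero] at i1
  rw [circleIntegral.integral_congr (by norm_num) e]
  exact i1

/-! the column term -/
theorem hb_n2_m (m c q : ℕ) {x : ℂ} (h : cc x ≠ 2) :
    KC (fun m' => N2 m' c q x * (3 * x ^ 2 - 3) / den m' c q x) (m + 1) =
      (cc x + 2) / (cc x - 2) * (N2 (m + 1) c q x * (3 * x ^ 2 - 3) / den (m + 1) c q x) := by
  have hE : cc x - 2 ≠ 0 := sub_ne_zero.2 h
  have h1 := congrArg (fun p => p.eval (cc x)) (FP_rec m)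
  have h2 := congrArg (fun p => p.eval (cc x)) (FQ_rec m)
  simp only [eval_add, eval_mul, eval_C, eval_X, eval_sub, eval_ofNat, eval_pow] at h1 h2
  have hr : (ku (m + 1) : ℂ) * ((FP (m + 2)).eval (cc x) + (FQ (m + 2)).eval (cc x)) + (kd (m + 1) : ℂ) * (cc x - 2) ^ 2 *
      ((FP m).eval (cc x) + (FQ m).eval (cc x)) =
      (((ku (m + 1) : ℂ) + kd (m + 1)) * (cc x - 2) + 4) * ((FP (m + 1)).eval (cc x) + (FQ (m + 1)).eval (cc x)) := by
    linear_combination h1 + h2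
  have e : ∀ m, N2 m c q x * (3 * x ^ 2 - 3) / den m c q x = ((FP m).eval (cc x) + (FQ m).eval (cc x)) /
      (cc x - 2) ^ (m + c + 1) * (fe c x * ((FPt q).eval (cc x) + (FQt q).eval (cc x)) * (3 * x ^ 2 - 3) / (cc x + 2) ^ (q + 1)) := by
    intro m
    unfold N2 den
    rw [← mul_div_mul_comm]
    congr 1
    ring
  have e1 := e (m + 1)
  have e2 := e (m + 2)
  have e3 := e m
  rw [show m + 1 + c + 1 = m + c + 1 + 1 by ring, pow_succ (cc x - 2) (m + c + 1)] at e1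
  rw [show m + 2 + c + 1 = m + c + 1 + 2 by ring, pow_add] at e2
  have key := hb_alg (W := fe c x * ((FPt q).eval (cc x) + (FQt q).eval (cc x)) * (3 * x ^ 2 - 3) / (cc x + 2) ^ (q + 1)) hE
    (pow_ne_zero (m + c + 1) hE) hr
  rw [← e1, ← e2, ← e3] at key
  unfold KC
  rw [Nat.add_sub_cancel, key, show cc x - 2 + 4 = cc x + 2 by ring]

theorem hb_n2_q (m c q : ℕ) {x : ℂ} (h : cc x ≠ -2) :
    KC (fun q' => N2 m c q' x * (3 * x ^ 2 - 3) / den m c q' x) (q + 1) =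
      (cc x - 2) / (cc x + 2) * (N2 m c (q + 1) x * (3 * x ^ 2 - 3) / den m c (q + 1) x) := by
  have hE : cc x + 2 ≠ 0 := fun h' => h (by linear_combination h')
  have h1 := congrArg (fun p => p.eval (cc x)) (FPt_rec q)
  have h2 := congrArg (fun p => p.eval (cc x)) (FQt_rec q)
  simp only [eval_add, eval_mul, eval_C, eval_X, eval_sub, eval_ofNat, eval_pow] at h1 h2
  have hr : (ku (q + 1) : ℂ) * ((FPt (q + 2)).eval (cc x) + (FQt (q + 2)).eval (cc x)) + (kd (q + 1) : ℂ) * (cc x + 2) ^ 2 *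
      ((FPt q).eval (cc x) + (FQt q).eval (cc x)) =
      (((ku (q + 1) : ℂ) + kd (q + 1)) * (cc x + 2) + -4) * ((FPt (q + 1)).eval (cc x) + (FQt (q + 1)).eval (cc x)) := by
    linear_combination h1 + h2
  have e : ∀ q, N2 m c q x * (3 * x ^ 2 - 3) / den m c q x = ((FPt q).eval (cc x) + (FQt q).eval (cc x)) /
      (cc x + 2) ^ (q + 1) * (fe c x * ((FP m).eval (cc x) + (FQ m).eval (cc x)) * (3 * x ^ 2 - 3) / (cc x - 2) ^ (m + c + 1)) := by
    intro q
    unfold N2 den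
    rw [← mul_div_mul_comm]
    congr 1 <;> ring
  have e1 := e (q + 1)
  have e2 := e (q + 2)
  have e3 := e q
  rw [pow_succ (cc x + 2) (q + 1)] at e1
  rw [show q + 2 + 1 = q + 1 + 2 by ring, pow_add] at e2
  have key := hb_alg (W := fe c x * ((FP m).eval (cc x) + (FQ m).eval (cc x)) * (3 * x ^ 2 - 3) / (cc x - 2) ^ (m + c + 1)) hE
    (pow_ne_zero (q + 1) hE) hr
  rw [← e1, ← e2, ← e3] at key
  unfold KC
  rw [Nat.add_sub_cancel, key, show cc x + 2 + -4 = cc x - 2 by ring]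

theorem hb_sph2 {x : ℂ} (hx : x ∈ Metric.sphere (2 : ℂ) (1 / 2)) : cc x ≠ 2 ∧ cc x ≠ -2 := by
  rw [Metric.mem_sphere, dist_eq_norm] at hx
  constructor
  · intro h
    have e : (x - 2) * (x + 1) ^ 2 = 0 := by
      unfold cc at h
      linear_combination h
    rcases mul_eq_zero.1 e with h1 | h1
    · rw [h1, norm_zero] at hx
      norm_num at hx
    · have h2 : x = -1 := by linear_combination pow_eq_zero_iff (n := 2) (by norm_num) |>.1 h1
      rw [h2] at hx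
      norm_num at hx
  · intro h
    have e : (x + 2) * (x - 1) ^ 2 = 0 := by
      unfold cc at h
      linear_combination h
    rcases mul_eq_zero.1 e with h1 | h1
    · have h2 : x = -2 := by linear_combination h1
      rw [h2] at hx
      norm_num at hx
    · have h2 : x = 1 := by linear_combination pow_eq_zero_iff (n := 2) (by norm_num) |>.1 h1
      rw [h2] at hx
      norm_num at hx

theorem hb_n2_ci (m c q : ℕ) : CircleIntegrable (fun x => N2 m c q x * (3 * x ^ 2 - 3) / den m c q x) 2 (1 / 2) := by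
  refine ContinuousOn.circleIntegrable (by norm_num) fun x hx => ?_
  obtain ⟨h2, h3⟩ := hb_sph2 hx
  have k2 : cc x - 2 ≠ 0 := sub_ne_zero.2 h2
  have k3 : cc x + 2 ≠ 0 := fun h => h3 (by linear_combination h)
  have hc := hx_ccd x
  refine ContinuousAt.continuousWithinAt (DifferentiableAt.continuousAt (𝕜 := ℂ) ?_)
  unfold N2 den
  refine DifferentiableAt.div (DifferentiableAt.mul (DifferentiableAt.mul (DifferentiableAt.mul (hx_fe c x) ?_) ?_) ?_) ?_ ?_
  · exact ((FP m).differentiable.differentiableAt.comp x hc).add ((FQ m).differentiable.differentiableAt.comp x hc)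
  · exact ((FPt q).differentiable.differentiableAt.comp x hc).add ((FQt q).differentiable.differentiableAt.comp x hc)
  · fun_prop
  · exact ((hc.sub_const 2).pow _).mul ((hc.add_const 2).pow _)
  · exact mul_ne_zero (pow_ne_zero _ k2) (pow_ne_zero _ k3)

theorem hb_ci2 (m c q : ℕ) : KC (fun m' => KC (fun q' => CI2 m' c q') (q + 1)) (m + 1) = CI2 (m + 1) c (q + 1) := by
  unfold CI2
  simp only [kc_mul]
  rw [← kc_int2 (F := fun m' q' x => N2 m' c q' x * (3 * x ^ 2 - 3) / den m' c q' x) (fun m q => hb_n2_ci m c q)]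
  congr 1
  refine circleIntegral.integral_congr (by norm_num) fun x hx => ?_
  obtain ⟨h2, h3⟩ := hb_sph2 hx
  have k2 : cc x - 2 ≠ 0 := sub_ne_zero.2 h2
  have k3 : cc x + 2 ≠ 0 := fun h => h3 (by linear_combination h)
  show KC (fun m' => KC (fun q' => N2 m' c q' x * (3 * x ^ 2 - 3) / den m' c q' x) (q + 1)) (m + 1) = _
  simp only [hb_n2_q _ _ _ h3, kc_mul]
  rw [hb_n2_m _ _ _ h2, ← mul_assoc, div_mul_div_comm, mul_comm (cc x - 2),
    mul_comm (cc x + 2) (cc x - 2), div_self (mul_ne_zero k2 k3), one_mul]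

theorem JV_har (m c q : ℕ) (hm : 1 ≤ m) (h : 1 ≤ q ∨ m + 1 ≤ c) :
    KK (fun m' => KK (fun q' => JV m' c q') q) m = JV m c q := by
  obtain ⟨m, rfl⟩ : ∃ k, m = k + 1 := ⟨m - 1, by omega⟩
  have key : KC (fun m' => KC (fun q' => CI m' c q') q) (m + 1) = CI (m + 1) c q := by
    unfold CI
    simp only [kc_sub, kc_add]
    rcases Nat.eq_zero_or_pos q with hq | hq
    · subst hq
      have hmc : m + 1 + 1 ≤ c := by omega
      rw [hb_cb_q0 hb_sph0.1 hb_sph0.2 m c (HX_zero _ _), hb_cb_q0 hb_sph6.1 hb_sph6.2 m c (HX_six _ _)]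
      have z : ∀ m' q', m' ≤ c → CI2 m' c q' = 0 := fun m' q' h => CI2_zero h q'
      have e : KC (fun m' => KC (fun q' => CI2 m' c q') 0) (m + 1) = 0 := by
        unfold KC
        simp only [Nat.add_sub_cancel, z (m + 1) _ (by omega : m + 1 ≤ c), z (m + 1 + 1) _ hmc, z m _ (by omega : m ≤ c)]
        ring
      rw [e, z (m + 1) _ (by omega : m + 1 ≤ c)]
    · obtain ⟨q, rfl⟩ : ∃ k, q = k + 1 := ⟨q - 1, by omega⟩
      rw [hb_cb_q hb_sph0.1 hb_sph0.2, hb_cb_q hb_sph6.1 hb_sph6.2, hb_ci2]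
  have e1 : ∀ m' q', JV m' c q' = (1 - CI m' c q').re := by
    intro m' q'
    unfold JV
    rw [Complex.sub_re, Complex.one_re]
  simp only [e1]
  have e2 : ∀ m', KK (fun q' => (1 - CI m' c q').re) q = (KC (fun q' => 1 - CI m' c q') q).re := fun m' => (kc_re _ _).symm
  simp only [e2]
  rw [← kc_re (fun m' => KC (fun q' => 1 - CI m' c q') q) (m + 1)]
  congr 1
  simp only [kc_sub, kc_const]
  rw [key]
end IP.Junc
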