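import Pool.Agent.Helper87.J.Prob
import Pool.Agent.Helper63.J.VJ
import Pool.Agent.Helper53.J.Alg
import Pool.Agent.Helper80.J.ContourJ
import Pool.Agent.Helper80.J.TendJ
import Pool.Agent.Helper80.J.HomJ
/-! MODULE HOM (helper80): the homogeneous value for `i ≤ L`, from `FF_main` and continuity. -/
namespace IP.Junc
open IP IP.Slit Finset Filter Topology Real

theorem hom_near (m p q : ℕ) : ∀ᶠ t : ℝ in 𝓝 0, (∀ i < 2 * (m + p) + 1, |bt (m + p) t i| < 1 / 100) ∧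
    ∀ i, 2 * (m + p) + 1 ≤ i → i < 2 * (m + p + q) + 2 → |bt (m + p) t i - π / 6| < 1 / 100 := by
  have hpos : (0 : ℝ) < 1 / (100 * (2 * (m + p + q) + 3)) := by positivity
  filter_upwards [Metric.ball_mem_nhds (0 : ℝ) hpos] with t ht
  rw [Metric.mem_ball, dist_zero_right, Real.norm_eq_abs, lt_div_iff₀ (by positivity)] at ht
  have key : ∀ i < 2 * (m + p + q) + 2, |t * ((i : ℝ) + 1)| < 1 / 100 := by
    intro i hi
    have h1 : (i : ℝ) + 1 ≤ 2 * (m + p + q) + 3 := by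
      have : (i : ℝ) + 1 ≤ ((2 * (m + p + q) + 3 : ℕ) : ℝ) := by exact_mod_cast (by omega : i + 1 ≤ 2 * (m + p + q) + 3)
      push_cast at this
      exact this
    rw [abs_mul, abs_of_nonneg (by positivity : (0 : ℝ) ≤ (i : ℝ) + 1)]
    have h2 : |t| * ((i : ℝ) + 1) ≤ |t| * (2 * (m + p + q) + 3) := mul_le_mul_of_nonneg_left h1 (abs_nonneg t)
    linarith
  refine ⟨fun i hi => ?_, fun i hi hi2 => ?_⟩
  · have := key i (by omega)
    unfold bt H47Perc.JJ.bD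
    rw [if_pos hi, zero_add]
    exact this
  · have := key i hi2
    unfold bt H47Perc.JJ.bD
    rw [if_neg (by omega), add_sub_cancel_left]
    exact this

theorem hom_ofReal (r : ℕ) (x : ℕ → ℝ) : Chi r (fun i => ((x i : ℝ) : ℂ)) = ((Chi r x : ℝ) : ℂ) := Chi_ofReal r x

theorem hom_xx (b : ℕ → ℝ) : xx b = fun j => X0 (b j) := rfl

/-- the constants -/
theorem hom_Z (m k n : ℕ) (hn : n = m + k + 1) (b : ℕ → ℝ) (y : ℝ) :
    4 ^ (n ^ 2 + m ^ 2 + k ^ 2) * (Z m (fun j => -b j) * Z k (fun j => π / 6 - b (2 * m + 1 + j)) *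
      Z n (ins1 (2 * m + 1) y b)) = (-1) ^ k * (Chi (2 * m + 1) (fun j => X0 (b j)) *
        Chi (2 * k + 1) (fun j => Xp (b (2 * m + 1 + j))) * Chi (2 * (m + k) + 3) (fun j => X0 (ins1 (2 * m + 1) y b j))) := by
  subst hn
  have z1 := Z_Chi m (fun j => -b j)
  have z2 := Z_Chi k (fun j => π / 6 - b (2 * m + 1 + j))
  have z3 := Z_Chi (m + k + 1) (ins1 (2 * m + 1) y b)
  have e1 : xx (fun j => -b j) = fun j => X0 (b j) := by
    funext j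
    exact X0_neg _
  have e2 : xx (fun j => π / 6 - b (2 * m + 1 + j)) = fun j => -Xp (b (2 * m + 1 + j)) := by
    funext j
    show 2 * Real.cos (2 * (π / 6 - b (2 * m + 1 + j))) = -(2 * Real.cos (2 * b (2 * m + 1 + j) + 2 * π / 3))
    rw [show 2 * (π / 6 - b (2 * m + 1 + j)) = π - (2 * b (2 * m + 1 + j) + 2 * π / 3) by ring, Real.cos_pi_sub]
    ring
  rw [e1] at z1
  rw [e2, Chi_neg] at z2
  rw [show 2 * (m + k + 1) + 1 = 2 * (m + k) + 3 by ring] at z3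
  change _ = Chi (2 * (m + k) + 3) (fun j => X0 (ins1 (2 * m + 1) y b j)) at z3
  rw [pow_add, pow_add]
  linear_combination (4 ^ (k ^ 2) * Z k (fun j => π / 6 - b (2 * m + 1 + j)) * (4 ^ ((m + k + 1) ^ 2) * Z (m + k + 1) (ins1 (2 * m + 1) y b))) * z1 +
    (Chi (2 * m + 1) (fun j => X0 (b j)) * (4 ^ ((m + k + 1) ^ 2) * Z (m + k + 1) (ins1 (2 * m + 1) y b))) * z2 +
    ((-1) ^ k * Chi (2 * m + 1) (fun j => X0 (b j)) * Chi (2 * k + 1) (fun j => Xp (b (2 * m + 1 + j)))) * z3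

theorem FF_hom (m p q : ℕ) : FF m (p + q) (H47Perc.JJ.bD (m + p)) (π / 6) =
    Z m (fun j => -H47Perc.JJ.bD (m + p) j) * Z (p + q) (fun j => π / 6 - H47Perc.JJ.bD (m + p) (2 * m + 1 + j)) *
      Z (m + (p + q) + 1) (ins1 (2 * m + 1) (π / 6) (H47Perc.JJ.bD (m + p))) * (1 - JV m (m + p) q) := by
  haveI := gen_neBot (m + p)
  set b0 := H47Perc.JJ.bD (m + p) with hb0
  -- the limit of the left side
  have h1 : Tendsto (fun t : ℝ => ((4 ^ ((m + (p + q) + 1) ^ 2 + m ^ 2 + (p + q) ^ 2) * FF m (p + q) (bt (m + p) t) (π / 6) : ℝ) : ℂ))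
      (𝓝[{t : ℝ | Gn (bt (m + p) t)}] 0) (𝓝 ((4 ^ ((m + (p + q) + 1) ^ 2 + m ^ 2 + (p + q) ^ 2) * FF m (p + q) b0 (π / 6) : ℝ) : ℂ)) :=
    ((Complex.continuous_ofReal.tendsto _).comp ((FF_tendsto m (p + q) (m + p) (π / 6)).const_mul _)).mono_left nhdsWithin_le_nhds
  have h2 : Tendsto (fun t : ℝ => (-1 : ℂ) ^ (p + q) * ((2 * π * Complex.I : ℂ)⁻¹ *
      ((∮ z in C(0, 1 / 10), GB m (p + q) (bt (m + p) t) (π / 6) z) +
        ∮ z in C(((π / 6 : ℝ) : ℂ), 1 / 10), GB m (p + q) (bt (m + p) t) (π / 6) z)))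
      (𝓝[{t : ℝ | Gn (bt (m + p) t)}] 0) (𝓝 ((-1 : ℂ) ^ (p + q) * ((2 * π * Complex.I : ℂ)⁻¹ *
      ((∮ z in C(0, 1 / 10), GB m (p + q) b0 (π / 6) z) +
        ∮ z in C(((π / 6 : ℝ) : ℂ), 1 / 10), GB m (p + q) b0 (π / 6) z)))) :=
    ((((GB_tendsto m p q (Or.inl rfl)).add (GB_tendsto m p q (Or.inr rfl))).const_mul _).const_mul _).mono_left nhdsWithin_le_nhds
  have h3 : ∀ᶠ t in (𝓝[{t : ℝ | Gn (bt (m + p) t)}] (0 : ℝ)),
      ((4 ^ ((m + (p + q) + 1) ^ 2 + m ^ 2 + (p + q) ^ 2) * FF m (p + q) (bt (m + p) t) (π / 6) : ℝ) : ℂ) =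
      (-1 : ℂ) ^ (p + q) * ((2 * π * Complex.I : ℂ)⁻¹ *
      ((∮ z in C(0, 1 / 10), GB m (p + q) (bt (m + p) t) (π / 6) z) +
        ∮ z in C(((π / 6 : ℝ) : ℂ), 1 / 10), GB m (p + q) (bt (m + p) t) (π / 6) z)) := by
    filter_upwards [self_mem_nhdsWithin, nhdsWithin_le_nhds (hom_near m p q)] with t ht hn
    rw [FF_main m (p + q) ht, ← RF_contour m p q ht hn.1 hn.2]
    push_cast
    ring
  have h4 := tendsto_nhds_unique h1 (h2.congr' (h3.mono fun t ht => ht.symm))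
  -- the homogeneous integrals
  have hI : ∀ z0 : ℂ, z0 = 0 ∨ z0 = ((π / 6 : ℝ) : ℂ) → (2 * π * Complex.I : ℂ)⁻¹ * (∮ z in C(z0, 1 / 10), GB m (p + q) b0 (π / 6) z) =
      Chi (2 * m + 1) (sA b0) * Chi (2 * (p + q) + 1) (sB m b0) * Chi (2 * (m + (p + q)) + 3) (sS m b0 (π / 6)) * CB z0 m (m + p) q := by
    intro z0 h0
    rw [circleIntegral.integral_congr (by norm_num) (fun z hz => GB_hom m p q h0 hz), circleIntegral.integral_const_mul]
    unfold CB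
    ring
  have hC : (2 * π * Complex.I : ℂ)⁻¹ * ((∮ z in C(0, 1 / 10), GB m (p + q) b0 (π / 6) z) +
        ∮ z in C(((π / 6 : ℝ) : ℂ), 1 / 10), GB m (p + q) b0 (π / 6) z) =
      Chi (2 * m + 1) (sA b0) * Chi (2 * (p + q) + 1) (sB m b0) * Chi (2 * (m + (p + q)) + 3) (sS m b0 (π / 6)) * CI m (m + p) q := by
    rw [mul_add, hI 0 (Or.inl rfl), hI _ (Or.inr rfl)]
    unfold CI
    rw [CI2_zero (Nat.le_add_right m p)]
    ring
  have hA : Chi (2 * m + 1) (sA b0) = ((Chi (2 * m + 1) (fun j => X0 (b0 j)) : ℝ) : ℂ) := hom_ofReal _ _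
  have hB : Chi (2 * (p + q) + 1) (sB m b0) = ((Chi (2 * (p + q) + 1) (fun j => Xp (b0 (2 * m + 1 + j))) : ℝ) : ℂ) := hom_ofReal _ _
  have hS : Chi (2 * (m + (p + q)) + 3) (sS m b0 (π / 6)) =
      ((Chi (2 * (m + (p + q)) + 3) (fun j => X0 (ins1 (2 * m + 1) (π / 6) b0 j)) : ℝ) : ℂ) := hom_ofReal _ _
  rw [hC, hA, hB, hS] at h4
  have h5 := congrArg Complex.re h4
  have e : ((-1 : ℂ) ^ (p + q) * (((Chi (2 * m + 1) (fun j => X0 (b0 j)) : ℝ) : ℂ) *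
      ((Chi (2 * (p + q) + 1) (fun j => Xp (b0 (2 * m + 1 + j))) : ℝ) : ℂ) *
      ((Chi (2 * (m + (p + q)) + 3) (fun j => X0 (ins1 (2 * m + 1) (π / 6) b0 j)) : ℝ) : ℂ) * CI m (m + p) q)).re =
      (-1) ^ (p + q) * (Chi (2 * m + 1) (fun j => X0 (b0 j)) * Chi (2 * (p + q) + 1) (fun j => Xp (b0 (2 * m + 1 + j))) *
        Chi (2 * (m + (p + q)) + 3) (fun j => X0 (ins1 (2 * m + 1) (π / 6) b0 j))) * (CI m (m + p) q).re := by
    rw [← Complex.re_ofReal_mul]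
    congr 1
    push_cast
    ring
  rw [e, Complex.ofReal_re, ← hom_Z m (p + q) _ rfl b0 (π / 6)] at h5
  have h6 : (4 : ℝ) ^ ((m + (p + q) + 1) ^ 2 + m ^ 2 + (p + q) ^ 2) ≠ 0 := by positivity
  apply mul_left_cancel₀ h6
  rw [h5]
  unfold JV
  ring

theorem hom_le (m p q : ℕ) : IP.Slit.tri m (p + q) (IP.P m 0) (((IP.In 0) ^ p) (IP.P q 0))
    (H47Perc.JJ.KJ m (m + p) q (IP.P (m + p) 0)) = JV m (m + p) q := by
  have h1 := H47Perc.JN.tri_FF m p q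
  have h2 := H47Perc.JN.left_P m p
  have h3 := H47Perc.JN.right_P m p q
  have h4 := H47Perc.JN.opJ_P m p q
  have h5 := FF_hom m p q
  change FF m (p + q) (H47Perc.JN.c0 (m + p)) (π / 6) = Z m (fun j => -H47Perc.JN.c0 (m + p) j) * Z (p + q) (H47Perc.JN.c1 m p) *
      Z (m + (p + q) + 1) (ins1 (2 * m + 1) (π / 6) (H47Perc.JN.c0 (m + p))) * (1 - JV m (m + p) q) at h5
  have h6 := mul_ne_zero (mul_ne_zero h2.2 h3.2) h4.2
  rw [h5, mul_div_cancel_left₀ _ h6, sub_sub_cancel] at h1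
  exact h1
end IP.Junc
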