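import Pool.Agent.Helper60.J.Hom
import Pool.Agent.Helper80.J.ExtJ
import Pool.Agent.Helper80.J.RowJ
import Pool.Agent.Helper80.J.LimJ
import Pool.Agent.Helper80.J.NeJ
/-! MODULE HOMGT (helper80): upper leg wider than the lower one, `m = n0 + p`, `p ≥ 1`.
`V` and `Z` VANISH at `b = (0^i, (π/6)^h, (π/3)^(i-L))` (three roots `2, -1, -1` in wheel position), so
`FF/(Z Z Z)` is `0/0` there; use `link_a` (all columns at `a ≠ 0`, last group at `a + π/3`, `a → 0`). -/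
namespace IP.Junc
open IP IP.Slit Finset Filter Topology Real

/-- the path of parameters for fixed `a` -/
noncomputable def aw (a t : ℝ) (i : ℕ) : ℝ := a + t * ((i : ℝ) + 1)

theorem aw_zero (a : ℝ) : aw a 0 = fun _ => a := by
  funext i
  unfold aw
  rw [zero_mul, add_zero]

theorem aw_cont (a : ℝ) (i : ℕ) : Continuous fun t => aw a t i := by
  unfold aw
  fun_prop

theorem aw_inj {a t : ℝ} (ht : 0 < t) {i j : ℕ} (h : i ≠ j) : aw a t i ≠ aw a t j := by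
  unfold aw
  intro h1
  have h2 : t * ((i : ℝ) + 1) = t * ((j : ℝ) + 1) := by linarith
  have h3 := mul_left_cancel₀ ht.ne' h2
  exact h (by exact_mod_cast (by linarith : (i : ℝ) = j))

theorem bc_ba (m n0 q : ℕ) (a : ℝ) : bc m n0 q (fun _ => a) (fun _ => π / 6) = H47Perc.JJ.ba m q a := rfl

theorem aw_good (n0 p q : ℕ) {a : ℝ} (h0 : 0 < a) (h1 : a < 1 / 200) :
    ∀ᶠ t : ℝ in 𝓝[>] 0, Good n0 p q (aw a t) (aw (π / 6) t) := by
  have hpos : (0 : ℝ) < 1 / (200 * (2 * (n0 + p + q) + 3)) := by positivity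
  filter_upwards [Ioo_mem_nhdsGT hpos] with t ht
  obtain ⟨ht0, ht1⟩ := ht
  rw [lt_div_iff₀ (by positivity)] at ht1
  have key : ∀ i < 2 * (n0 + p + q) + 2, t * ((i : ℝ) + 1) < 1 / 200 := by
    intro i hi
    have h1 : (i : ℝ) + 1 ≤ 2 * (n0 + p + q) + 3 := by
      have : (i : ℝ) + 1 ≤ ((2 * (n0 + p + q) + 3 : ℕ) : ℝ) := by exact_mod_cast (by omega : i + 1 ≤ 2 * (n0 + p + q) + 3)
      push_cast at this
      exact this
    have h2 : t * ((i : ℝ) + 1) ≤ t * (2 * (n0 + p + q) + 3) := mul_le_mul_of_nonneg_left h1 ht0.le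
    linarith
  refine ⟨fun i hi => ?_, fun i _ j _ hij => aw_inj ht0 hij, fun l hl => ?_, fun i _ j _ hij => aw_inj ht0 hij⟩
  · have h2 := key i (by omega)
    have h3 : 0 < t * ((i : ℝ) + 1) := by positivity
    unfold aw
    exact ⟨by linarith, by linarith⟩
  · have h2 := key l (by omega)
    have h3 : 0 < t * ((l : ℝ) + 1) := by positivity
    unfold aw
    rw [add_sub_cancel_left, abs_of_pos h3]
    exact ⟨by linarith, by intro h; linarith⟩

/-- `Xm` through `|2b - 2π/3|` -/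
theorem Xm_abs (b : ℝ) : Xm b = 2 * Real.cos |2 * b - 2 * π / 3| := by
  rw [Real.cos_abs]
  rfl

theorem Xm_ne {b b' : ℝ} (h : |2 * b - 2 * π / 3| ≤ π) (h' : |2 * b' - 2 * π / 3| ≤ π)
    (hne : |2 * b - 2 * π / 3| ≠ |2 * b' - 2 * π / 3|) : Xm b ≠ Xm b' := by
  rw [Xm_abs, Xm_abs]
  intro e
  exact hne (Real.injOn_cos ⟨abs_nonneg _, h⟩ ⟨abs_nonneg _, h'⟩ (by linarith))

/-- the two groups of the right leg -/
theorem bc_cases {n0 p q : ℕ} {α ρ : ℕ → ℝ} (h : Good n0 p q α ρ) {j : ℕ} (hj : j < 2 * (p + q) + 1) :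
    (∃ l < 2 * q + 1, l = j ∧ bc (n0 + p) n0 q α ρ (2 * (n0 + p) + 1 + j) = ρ l) ∨
      ∃ k < 2 * (n0 + p) + 1, k + (2 * q + 1) = 2 * n0 + 1 + j ∧ bc (n0 + p) n0 q α ρ (2 * (n0 + p) + 1 + j) = α k + π / 3 := by
  unfold bc
  by_cases h1 : j < 2 * q + 1
  · refine Or.inl ⟨j, h1, rfl, ?_⟩
    rw [if_neg (by omega), if_pos (by omega)]
    congr 1
    omega
  · refine Or.inr ⟨2 * n0 + 1 + (j - (2 * q + 1)), by omega, by omega, ?_⟩
    rw [if_neg (by omega), if_neg (by omega)]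
    congr 2
    omega

theorem bc_Xm {n0 p q : ℕ} {α ρ : ℕ → ℝ} (h : Good n0 p q α ρ) : ∀ i < 2 * (p + q) + 1, ∀ j < 2 * (p + q) + 1, i ≠ j →
    Xm (bc (n0 + p) n0 q α ρ (2 * (n0 + p) + 1 + i)) ≠ Xm (bc (n0 + p) n0 q α ρ (2 * (n0 + p) + 1 + j)) := by
  have hpi := Real.pi_gt_three
  have hpi4 := Real.pi_lt_four
  have hρ : ∀ l < 2 * q + 1, |2 * ρ l - 2 * π / 3| = 2 * π / 3 - 2 * ρ l ∧ |ρ l - π / 6| < 1 / 100 := by
    intro l hl
    have h1 := (h.rho l hl).1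
    have h2 := abs_lt.1 h1
    refine ⟨?_, h1⟩
    rw [abs_of_neg (by linarith)]
    ring
  have hα : ∀ k < 2 * (n0 + p) + 1, |2 * (α k + π / 3) - 2 * π / 3| = 2 * α k := by
    intro k hk
    have h1 := (h.al k hk).1
    rw [show 2 * (α k + π / 3) - 2 * π / 3 = 2 * α k by ring, abs_of_pos (by linarith)]
  intro i hi j hj hij
  rcases bc_cases h hi with ⟨l, hl, e1, e2⟩ | ⟨k, hk, e1, e2⟩ <;> rcases bc_cases h hj with ⟨l', hl', e1', e2'⟩ | ⟨k', hk', e1', e2'⟩ <;>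
    rw [e2, e2']
  · have a1 := hρ l hl
    have a2 := hρ l' hl'
    have b1 := abs_lt.1 a1.2
    have b2 := abs_lt.1 a2.2
    refine Xm_ne (by rw [a1.1]; linarith) (by rw [a2.1]; linarith) ?_
    rw [a1.1, a2.1]
    intro h3
    exact h.rho_inj l hl l' hl' (by omega) (by linarith)
  · have a1 := hρ l hl
    have a2 := hα k' hk'
    have b1 := abs_lt.1 a1.2
    have b2 := h.al k' hk'
    refine Xm_ne (by rw [a1.1]; linarith) (by rw [a2]; linarith) ?_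
    rw [a1.1, a2]
    intro h3
    linarith
  · have a1 := hρ l' hl'
    have a2 := hα k hk
    have b1 := abs_lt.1 a1.2
    have b2 := h.al k hk
    refine Xm_ne (by rw [a2]; linarith) (by rw [a1.1]; linarith) ?_
    rw [a1.1, a2]
    intro h3
    linarith
  · have a1 := hα k hk
    have a2 := hα k' hk'
    have b1 := h.al k hk
    have b2 := h.al k' hk'
    refine Xm_ne (by rw [a1]; linarith) (by rw [a2]; linarith) ?_
    rw [a1, a2]
    intro h3
    exact h.al_inj k hk k' hk' (by omega) (by linarith)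

theorem bc_inj {n0 p q : ℕ} {α ρ : ℕ → ℝ} (h : Good n0 p q α ρ) :
    ∀ i < 2 * (n0 + p) + 2 * (p + q) + 2, ∀ j < 2 * (n0 + p) + 2 * (p + q) + 2, i ≠ j →
      bc (n0 + p) n0 q α ρ i ≠ bc (n0 + p) n0 q α ρ j := by
  have hpi := Real.pi_gt_three
  have hpi4 := Real.pi_lt_four
  have hR : ∀ j, 2 * (n0 + p) + 1 ≤ j → j < 2 * (n0 + p) + 2 * (p + q) + 2 → 1 / 100 < bc (n0 + p) n0 q α ρ j := by
    intro j h1 h2
    obtain ⟨j, rfl⟩ := Nat.exists_eq_add_of_le h1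
    rcases bc_cases h (show j < 2 * (p + q) + 1 by omega) with ⟨l, hl, e1, e2⟩ | ⟨k, hk, e1, e2⟩ <;> rw [e2]
    · have := abs_lt.1 (h.rho l hl).1
      linarith
    · have := (h.al k hk).1
      linarith
  have hL : ∀ j, j < 2 * (n0 + p) + 1 → bc (n0 + p) n0 q α ρ j = α j := by
    intro j hj
    unfold bc
    rw [if_pos hj]
  have main : ∀ i j, i < j → j < 2 * (n0 + p) + 2 * (p + q) + 2 → bc (n0 + p) n0 q α ρ i ≠ bc (n0 + p) n0 q α ρ j := by
    intro i j hij hj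
    by_cases h1 : j < 2 * (n0 + p) + 1
    · rw [hL i (by omega), hL j h1]
      exact h.al_inj i (by omega) j h1 (by omega)
    · have h2 := hR j (by omega) hj
      by_cases h3 : i < 2 * (n0 + p) + 1
      · rw [hL i h3]
        have := (h.al i h3).2
        intro h4
        linarith
      · obtain ⟨i', rfl⟩ := Nat.exists_eq_add_of_le (show 2 * (n0 + p) + 1 ≤ i by omega)
        obtain ⟨j', rfl⟩ := Nat.exists_eq_add_of_le (show 2 * (n0 + p) + 1 ≤ j by omega)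
        intro h4
        exact bc_Xm h i' (by omega) j' (by omega) (by omega) (by rw [h4])
  intro i hi j hj hij
  rcases lt_or_gt_of_ne hij with h1 | h1
  · exact main i j h1 hj
  · exact (main j i h1 hi).symm

theorem bc_cont (m n0 q : ℕ) {α ρ : ℝ → ℕ → ℝ} (hα : ∀ i, Continuous fun t => α t i) (hρ : ∀ l, Continuous fun t => ρ t l) (j : ℕ) :
    Continuous fun t => bc m n0 q (α t) (ρ t) j := by
  unfold bc
  split_ifs
  · exact hα _
  · exact hρ _
  · exact (hα _).add continuous_const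

theorem b1_cont (n0 : ℕ) {α ρ : ℝ → ℕ → ℝ} (hα : ∀ i, Continuous fun t => α t i) (hρ : ∀ l, Continuous fun t => ρ t l) (j : ℕ) :
    Continuous fun t => b1 n0 (α t) (ρ t) j := by
  unfold b1
  split_ifs
  · exact hα _
  · exact hρ _

theorem sS_cont (m : ℕ) {b : ℝ → ℕ → ℝ} (hb : ∀ j, Continuous fun t => b t j) (y : ℝ) (i : ℕ) :
    Continuous fun t => sS m (b t) y i := by
  have h : ∀ j, Continuous fun t => ins1 (2 * m + 1) y (b t) j := by
    intro j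
    unfold ins1
    split_ifs
    · exact hb _
    · exact continuous_const
    · exact hb _
  exact Complex.continuous_ofReal.comp (continuous_const.mul (Real.continuous_cos.comp (continuous_const.mul (h i))))

theorem sB_cont (m : ℕ) {b : ℝ → ℕ → ℝ} (hb : ∀ j, Continuous fun t => b t j) (i : ℕ) :
    Continuous fun t => sB m (b t) i := by
  refine Complex.continuous_ofReal.comp ?_
  unfold Xp
  exact continuous_const.mul (Real.continuous_cos.comp ((continuous_const.mul (hb _)).add continuous_const))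

theorem sA_cont {b : ℝ → ℕ → ℝ} (hb : ∀ j, Continuous fun t => b t j) (i : ℕ) :
    Continuous fun t => sA (b t) i :=
  Complex.continuous_ofReal.comp (continuous_const.mul (Real.continuous_cos.comp (continuous_const.mul (hb i))))

/-- the contour integrals -/
noncomputable def JR (n0 p q : ℕ) (α ρ : ℕ → ℝ) : ℂ :=
  (2 * π * Complex.I : ℂ)⁻¹ * ((∮ z in C(((π / 6 : ℝ) : ℂ), 1 / 10), GR n0 p q α ρ (π / 6) z) -
          ∮ x in C(2, 1 / 2), GC n0 p q α ρ (π / 6) x)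

/-- all the columns at `a` -/
theorem gt_fix (n0 p q : ℕ) {a : ℝ} (h0 : 0 < a) (h1 : a < 1 / 200) :
    ((4 ^ ((n0 + p + (p + q) + 1) ^ 2 + (n0 + p) ^ 2 + (p + q) ^ 2) *
        FF (n0 + p) (p + q) (H47Perc.JJ.ba (n0 + p) q a) (π / 6) : ℝ) : ℂ) *
        Chi (2 * (n0 + q) + 3) (sS n0 (b1 n0 (fun _ => a) (fun _ => π / 6)) (π / 6)) =
      (-1) ^ (p + q) * Chi (2 * (n0 + p + (p + q)) + 3) (sS (n0 + p) (H47Perc.JJ.ba (n0 + p) q a) (π / 6)) *
        JR n0 p q (fun _ => a) (fun _ => π / 6) := by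
  have hα := aw_cont a
  have hρ := aw_cont (π / 6)
  have ha : ∀ i, |aw a 0 i| < 1 / 100 := by
    intro i
    rw [aw_zero, abs_of_pos h0]
    linarith
  have hr : ∀ l, |aw (π / 6) 0 l - π / 6| < 1 / 100 := by
    intro l
    rw [aw_zero, sub_self, abs_zero]
    norm_num
  have hbc := bc_cont (n0 + p) n0 q hα hρ
  have hb1 := b1_cont n0 hα hρ
  have e0 : bc (n0 + p) n0 q (aw a 0) (aw (π / 6) 0) = H47Perc.JJ.ba (n0 + p) q a := by
    rw [aw_zero, aw_zero, bc_ba]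
  -- limits
  have l1 : Tendsto (fun t : ℝ => ((4 ^ ((n0 + p + (p + q) + 1) ^ 2 + (n0 + p) ^ 2 + (p + q) ^ 2) *
      FF (n0 + p) (p + q) (bc (n0 + p) n0 q (aw a t) (aw (π / 6) t)) (π / 6) : ℝ) : ℂ)) (𝓝 0)
      (𝓝 ((4 ^ ((n0 + p + (p + q) + 1) ^ 2 + (n0 + p) ^ 2 + (p + q) ^ 2) *
        FF (n0 + p) (p + q) (H47Perc.JJ.ba (n0 + p) q a) (π / 6) : ℝ) : ℂ)) := by
    refine (Complex.continuous_ofReal.tendsto _).comp (Tendsto.const_mul _ (FF_cont (n0 + p) (p + q) (π / 6) ?_))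
    intro j
    rw [← e0]
    exact (hbc j).tendsto 0
  have l2 : Tendsto (fun t : ℝ => Chi (2 * (n0 + q) + 3) (sS n0 (b1 n0 (aw a t) (aw (π / 6) t)) (π / 6))) (𝓝 0)
      (𝓝 (Chi (2 * (n0 + q) + 3) (sS n0 (b1 n0 (fun _ => a) (fun _ => π / 6)) (π / 6)))) := by
    have h := Chi_tendsto (2 * (n0 + q) + 3) (s := fun t => sS n0 (b1 n0 (aw a t) (aw (π / 6) t)) (π / 6))
      (sS_cont n0 hb1 (π / 6))
    simp only [aw_zero] at h
    exact h
  have l3 : Tendsto (fun t : ℝ => Chi (2 * (n0 + p + (p + q)) + 3)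
      (sS (n0 + p) (bc (n0 + p) n0 q (aw a t) (aw (π / 6) t)) (π / 6))) (𝓝 0)
      (𝓝 (Chi (2 * (n0 + p + (p + q)) + 3) (sS (n0 + p) (H47Perc.JJ.ba (n0 + p) q a) (π / 6)))) := by
    have h := Chi_tendsto (2 * (n0 + p + (p + q)) + 3)
      (s := fun t => sS (n0 + p) (bc (n0 + p) n0 q (aw a t) (aw (π / 6) t)) (π / 6))
      (sS_cont (n0 + p) hbc (π / 6))
    simp only [e0] at h
    exact h
  have l4 := GR_tendsto n0 p q hα hρ ha hr
  have l5 := GC_tendsto n0 p q hα hρ ha hr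
  rw [aw_zero, aw_zero] at l4 l5
  have l6 : Tendsto (fun t : ℝ => JR n0 p q (aw a t) (aw (π / 6) t)) (𝓝 0) (𝓝 (JR n0 p q (fun _ => a) (fun _ => π / 6))) :=
    (l4.sub l5).const_mul _
  have hL := (l1.mul l2).mono_left (nhdsWithin_le_nhds (s := Set.Ioi 0))
  have hR := ((l3.const_mul ((-1 : ℂ) ^ (p + q))).mul l6).mono_left (nhdsWithin_le_nhds (s := Set.Ioi 0))
  refine tendsto_nhds_unique hL (hR.congr' ?_)
  filter_upwards [aw_good n0 p q h0 h1] with t hg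
  have r1 := FF_main_ext (n0 + p) (p + q) (bc_inj hg) (bc_Xm hg) (π / 6)
  have r2 := RF_gt n0 p q hg
  rw [r1, Complex.ofReal_mul, Complex.ofReal_pow, Complex.ofReal_neg, Complex.ofReal_one]
  unfold JR
  linear_combination (-((-1 : ℂ) ^ (p + q))) * r2

/-- the constants -/
noncomputable def KG (n0 p q : ℕ) (a : ℝ) : ℂ := Chi (2 * (n0 + p) + 1) (sA (fun _ => a)) *
        Chi (2 * (p + q) + 1) (sB (n0 + p) (bc (n0 + p) n0 q (fun _ => a) (fun _ => π / 6))) *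
        Chi (2 * (n0 + q) + 3) (sS n0 (b1 n0 (fun _ => a) (fun _ => π / 6)) (π / 6))

theorem Chi_of_Z {n : ℕ} {b : ℕ → ℝ} (h : Z n b ≠ 0) : Chi (2 * n + 1) (fun j => X0 (b j)) ≠ 0 := by
  have h1 := Z_Chi n b
  change _ = Chi (2 * n + 1) (fun j => X0 (b j)) at h1
  rw [← h1]
  exact mul_ne_zero (by positivity) h

theorem KG_zero_ne (n0 p q : ℕ) : KG n0 p q 0 ≠ 0 := by
  unfold KG
  refine mul_ne_zero (mul_ne_zero ?_ ?_) ?_
  · rw [show Chi (2 * (n0 + p) + 1) (sA (fun _ => (0 : ℝ))) = ((Chi (2 * (n0 + p) + 1) (fun j => X0 ((fun _ => (0 : ℝ)) j)) : ℝ) : ℂ)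
      from hom_ofReal _ _, Complex.ofReal_ne_zero]
    exact Chi_of_Z (H47Perc.JJ.vj_P (n0 + p) (fun _ _ => rfl)).1
  · rw [show Chi (2 * (p + q) + 1) (sB (n0 + p) (bc (n0 + p) n0 q (fun _ => (0 : ℝ)) (fun _ => π / 6))) =
      ((Chi (2 * (p + q) + 1) (fun j => Xp (bc (n0 + p) n0 q (fun _ => (0 : ℝ)) (fun _ => π / 6) (2 * (n0 + p) + 1 + j))) : ℝ) : ℂ)
      from hom_ofReal _ _, Complex.ofReal_ne_zero]
    have h1 := Chi_of_Z (H47Perc.JJ.rightZ_ne q p)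
    have h2 : Chi (2 * (p + q) + 1) (fun j => Xp (bc (n0 + p) n0 q (fun _ => (0 : ℝ)) (fun _ => π / 6) (2 * (n0 + p) + 1 + j))) =
        Chi (2 * (p + q) + 1) (fun j => -X0 (H47Perc.JJ.bR q j)) := by
      apply Chi_congr
      intro j hj
      have e : H47Perc.JJ.bR q j = π / 6 - bc (n0 + p) n0 q (fun _ => (0 : ℝ)) (fun _ => π / 6) (2 * (n0 + p) + 1 + j) := by
        unfold H47Perc.JJ.bR bc
        by_cases h : j < 2 * q + 1
        · rw [if_pos h, if_neg (by omega), if_pos (by omega), sub_self]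
        · rw [if_neg h, if_neg (by omega), if_neg (by omega)]
          ring
      rw [e]
      unfold X0 Xp
      rw [show 2 * (π / 6 - bc (n0 + p) n0 q (fun _ => (0 : ℝ)) (fun _ => π / 6) (2 * (n0 + p) + 1 + j)) =
        π - (2 * bc (n0 + p) n0 q (fun _ => (0 : ℝ)) (fun _ => π / 6) (2 * (n0 + p) + 1 + j) + 2 * π / 3) by ring, Real.cos_pi_sub]
      ring
    rw [h2, Chi_neg]
    exact mul_ne_zero (pow_ne_zero _ (by norm_num)) h1
  · rw [show Chi (2 * (n0 + q) + 3) (sS n0 (b1 n0 (fun _ => (0 : ℝ)) (fun _ => π / 6)) (π / 6)) =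
      ((Chi (2 * (n0 + q) + 3) (fun j => X0 (ins1 (2 * n0 + 1) (π / 6) (b1 n0 (fun _ => (0 : ℝ)) (fun _ => π / 6)) j)) : ℝ) : ℂ)
      from hom_ofReal _ _, Complex.ofReal_ne_zero]
    have h1 := Chi_of_Z (H47Perc.JN.opJ_P n0 0 q).2
    have e1 : 2 * (n0 + (0 + q) + 1) + 1 = 2 * (n0 + q) + 3 := by ring
    rw [e1] at h1
    exact h1

theorem JR_zero (n0 p q : ℕ) : JR n0 p q (fun _ => 0) (fun _ => π / 6) = KG n0 p q 0 * CI (n0 + p) n0 q := by
  unfold JR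
  rw [circleIntegral.integral_congr (by norm_num) (fun z hz => GR_hom n0 p q hz), circleIntegral.integral_const_mul,
    circleIntegral.integral_congr (by norm_num) (fun z hz => GC_hom n0 p q hz), circleIntegral.integral_const_mul]
  unfold CI KG
  rw [CB0_zero (Nat.le_add_right n0 p)]
  unfold CB CI2
  ring

theorem JR_tendsto (n0 p q : ℕ) : Tendsto (fun a : ℝ => JR n0 p q (fun _ => a) (fun _ => π / 6)) (𝓝 0)
    (𝓝 (JR n0 p q (fun _ => 0) (fun _ => π / 6))) := by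
  have hα : ∀ i : ℕ, Continuous fun t : ℝ => (fun (a : ℝ) (_ : ℕ) => a) t i := fun _ => continuous_id
  have hρ : ∀ i : ℕ, Continuous fun t : ℝ => (fun (_ : ℝ) (_ : ℕ) => π / 6) t i := fun _ => continuous_const
  have ha : ∀ i : ℕ, |(fun (a : ℝ) (_ : ℕ) => a) 0 i| < 1 / 100 := by
    intro i
    simp only [abs_zero]
    norm_num
  have hr : ∀ i : ℕ, |(fun (_ : ℝ) (_ : ℕ) => π / 6) 0 i - π / 6| < 1 / 100 := by
    intro i
    simp only [sub_self, abs_zero]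
    norm_num
  exact ((GR_tendsto n0 p q hα hρ ha hr).sub (GC_tendsto n0 p q hα hρ ha hr)).const_mul _

theorem KG_tendsto (n0 p q : ℕ) : Tendsto (fun a : ℝ => KG n0 p q a) (𝓝 0) (𝓝 (KG n0 p q 0)) := by
  have hα : ∀ i : ℕ, Continuous fun t : ℝ => (fun (a : ℝ) (_ : ℕ) => a) t i := fun _ => continuous_id
  have hρ : ∀ i : ℕ, Continuous fun t : ℝ => (fun (_ : ℝ) (_ : ℕ) => π / 6) t i := fun _ => continuous_const
  have h1 := Chi_tendsto (2 * (n0 + p) + 1) (s := fun a => sA (fun _ => a)) (sA_cont hα)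
  have h2 := Chi_tendsto (2 * (p + q) + 1) (s := fun a => sB (n0 + p) (bc (n0 + p) n0 q (fun _ => a) (fun _ => π / 6)))
    (sB_cont (n0 + p) (bc_cont (n0 + p) n0 q hα hρ))
  have h3 := Chi_tendsto (2 * (n0 + q) + 3) (s := fun a => sS n0 (b1 n0 (fun _ => a) (fun _ => π / 6)) (π / 6))
    (sS_cont n0 (b1_cont n0 hα hρ) (π / 6))
  exact (h1.mul h2).mul h3

theorem hom_gt (n0 p q : ℕ) (hp : 1 ≤ p) : IP.Slit.tri (n0 + p) (p + q) (IP.P (n0 + p) 0) (IP.P q 0)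
    (H47Perc.JJ.KJ2 n0 p q (IP.P n0 0)) = JV (n0 + p) n0 q := by
  have h1 := (H47Perc.JJ.link_a n0 p q).mono_left (nhdsWithin_mono (0 : ℝ) (fun a (ha : a ∈ Set.Ioi (0 : ℝ)) => ne_of_gt ha))
  have h2 : Tendsto (fun a : ℝ => 1 - (JR n0 p q (fun _ => a) (fun _ => π / 6) / KG n0 p q a).re) (𝓝[>] 0)
      (𝓝 (1 - (JR n0 p q (fun _ => 0) (fun _ => π / 6) / KG n0 p q 0).re)) :=
    (((Complex.continuous_re.tendsto _).comp ((JR_tendsto n0 p q).div (KG_tendsto n0 p q) (KG_zero_ne n0 p q))).const_sub 1).mono_left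
      nhdsWithin_le_nhds
  have h3 : JR n0 p q (fun _ => 0) (fun _ => π / 6) / KG n0 p q 0 = CI (n0 + p) n0 q := by
    rw [JR_zero, mul_div_cancel_left₀ _ (KG_zero_ne n0 p q)]
  rw [h3] at h2
  refine tendsto_nhds_unique h1 (h2.congr' ?_)
  have hZ := (H47Perc.JJ.lowZ_ne n0 p q).filter_mono (nhdsWithin_mono (0 : ℝ) (fun a (ha : a ∈ Set.Ioi (0 : ℝ)) => ne_of_gt ha))
  have hK : ∀ᶠ a : ℝ in 𝓝[>] 0, KG n0 p q a ≠ 0 :=
    (nhdsWithin_le_nhds (s := Set.Ioi (0 : ℝ))) ((KG_tendsto n0 p q).eventually (isOpen_ne.mem_nhds (KG_zero_ne n0 p q)))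
  filter_upwards [hZ, hK, Ioo_mem_nhdsGT (show (0 : ℝ) < 1 / 200 by norm_num)] with a hz hk ha
  have g1 := gt_fix n0 p q ha.1 ha.2
  have g2 := hom_Z (n0 + p) (p + q) _ rfl (H47Perc.JJ.ba (n0 + p) q a) (π / 6)
  have g3 := Chi_of_Z hz
  rw [show 2 * (n0 + p + (p + q) + 1) + 1 = 2 * (n0 + p + (p + q)) + 3 by ring] at g3
  have eA : Chi (2 * (n0 + p) + 1) (fun j => X0 (H47Perc.JJ.ba (n0 + p) q a j)) = Chi (2 * (n0 + p) + 1) (fun _ => X0 a) := by
    apply Chi_congr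
    intro j hj
    unfold H47Perc.JJ.ba
    rw [if_pos hj]
  rw [eA] at g2
  unfold KG at hk
  have cA : Chi (2 * (n0 + p) + 1) (sA (fun _ => a)) = ((Chi (2 * (n0 + p) + 1) (fun _ => X0 a) : ℝ) : ℂ) := hom_ofReal _ _
  have cB : Chi (2 * (p + q) + 1) (sB (n0 + p) (bc (n0 + p) n0 q (fun _ => a) (fun _ => π / 6))) =
      ((Chi (2 * (p + q) + 1) (fun j => Xp (H47Perc.JJ.ba (n0 + p) q a (2 * (n0 + p) + 1 + j))) : ℝ) : ℂ) := hom_ofReal _ _
  have cS' : Chi (2 * (n0 + q) + 3) (sS n0 (b1 n0 (fun _ => a) (fun _ => π / 6)) (π / 6)) =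
      ((Chi (2 * (n0 + q) + 3) (fun j => X0 (ins1 (2 * n0 + 1) (π / 6) (b1 n0 (fun _ => a) (fun _ => π / 6)) j)) : ℝ) : ℂ) :=
    hom_ofReal _ _
  have cS : Chi (2 * (n0 + p + (p + q)) + 3) (sS (n0 + p) (H47Perc.JJ.ba (n0 + p) q a) (π / 6)) =
      ((Chi (2 * (n0 + p + (p + q)) + 3) (fun j => X0 (ins1 (2 * (n0 + p) + 1) (π / 6) (H47Perc.JJ.ba (n0 + p) q a) j)) : ℝ) : ℂ) :=
    hom_ofReal _ _
  unfold KG
  rw [cS', cS] at g1
  rw [cA, cB, cS'] at hk ⊢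
  set NN : ℝ := 4 ^ ((n0 + p + (p + q) + 1) ^ 2 + (n0 + p) ^ 2 + (p + q) ^ 2) with hNN
  have hN : NN ≠ 0 := by positivity
  set F := FF (n0 + p) (p + q) (H47Perc.JJ.ba (n0 + p) q a) (π / 6)
  set A := Chi (2 * (n0 + p) + 1) (fun _ => X0 a)
  set B := Chi (2 * (p + q) + 1) (fun j => Xp (H47Perc.JJ.ba (n0 + p) q a (2 * (n0 + p) + 1 + j)))
  set S' := Chi (2 * (n0 + q) + 3) (fun j => X0 (ins1 (2 * n0 + 1) (π / 6) (b1 n0 (fun _ => a) (fun _ => π / 6)) j))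
  set S := Chi (2 * (n0 + p + (p + q)) + 3) (fun j => X0 (ins1 (2 * (n0 + p) + 1) (π / 6) (H47Perc.JJ.ba (n0 + p) q a) j))
  set J := JR n0 p q (fun _ => a) (fun _ => π / 6)
  set ZZ := Z (n0 + p) (fun j => -H47Perc.JJ.ba (n0 + p) q a j) *
          Z (p + q) (fun j => π / 6 - H47Perc.JJ.ba (n0 + p) q a (2 * (n0 + p) + 1 + j)) *
          Z (n0 + p + (p + q) + 1) (ins1 (2 * (n0 + p) + 1) (π / 6) (H47Perc.JJ.ba (n0 + p) q a))
  have hs : (-1 : ℝ) ^ (p + q) ≠ 0 := pow_ne_zero _ (by norm_num)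
  have kA : A ≠ 0 := by
    intro h
    exact hk (by rw [h]; push_cast; ring)
  have kB : B ≠ 0 := by
    intro h
    exact hk (by rw [h]; push_cast; ring)
  have kS' : S' ≠ 0 := by
    intro h
    exact hk (by rw [h]; push_cast; ring)
  have kS : S ≠ 0 := g3
  have kZ : ZZ ≠ 0 := by
    intro h
    rw [h, mul_zero] at g2
    exact mul_ne_zero hs (mul_ne_zero (mul_ne_zero kA kB) kS) g2.symm
  -- the complex identity
  have hJ : J / ((A : ℂ) * (B : ℂ) * (S' : ℂ)) = ((F / ZZ : ℝ) : ℂ) := by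
    have hA : (A : ℂ) ≠ 0 := Complex.ofReal_ne_zero.2 kA
    have hB : (B : ℂ) ≠ 0 := Complex.ofReal_ne_zero.2 kB
    have hS' : (S' : ℂ) ≠ 0 := Complex.ofReal_ne_zero.2 kS'
    have hS : (S : ℂ) ≠ 0 := Complex.ofReal_ne_zero.2 kS
    have hZ' : (ZZ : ℂ) ≠ 0 := Complex.ofReal_ne_zero.2 kZ
    have hN' : (NN : ℂ) ≠ 0 := Complex.ofReal_ne_zero.2 hN
    have hs' : ((-1 : ℂ) ^ (p + q)) ≠ 0 := pow_ne_zero _ (by norm_num)
    have g2' : (NN : ℂ) * ZZ = (-1) ^ (p + q) * (A * B * S) := by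
      have := congrArg (fun x : ℝ => (x : ℂ)) g2
      push_cast at this
      exact this
    have g1' : (NN : ℂ) * F * S' = (-1) ^ (p + q) * S * J := by
      have := g1
      push_cast at this
      exact this
    rw [Complex.ofReal_div, div_eq_div_iff (mul_ne_zero (mul_ne_zero hA hB) hS') hZ']
    apply mul_left_cancel₀ (mul_ne_zero hs' (mul_ne_zero hN' hS))
    linear_combination ((-1 : ℂ) ^ (p + q) * S * J) * g2' - ((-1 : ℂ) ^ (p + q) * A * B * S) * g1'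
  rw [hJ, Complex.ofReal_re]
end IP.Junc
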