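import Pool.Agent.Helper60.J.W
import Pool.Agent.Helper31.J.LimAbs
import Pool.Agent.Helper33.J.Taylor
/-! MODULE LIM (owner helper12, with helper31): discrete maximum principle.

Plan.  Fix `L = 2c+1`, `G m q = WW ((i+1/2)^2/(L+1/2)^2) ((h+1/2)^2/(L+1/2)^2)`, `i = 2m+1`, `h = 2q+1`.
(1) consistency: on the compact set `{η ≤ X ≤ Λ, 0 ≤ Y ≤ Λ} \ {Y < η, X > 1-η}`: `|K K G - G| ≤ C / c^3` for `q ≥ 1`,
`≤ C / c^2` for `q = 0` (`JL31.consist`, `JL31.consist0`, with `JW.tay_compact`);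
(2) barriers: `x^2/L^2` (strictly subharmonic), `h/L` (dominates the error at `q = 0`), `sqrt x` (superharmonic for `m ≥ 1`,
far field); (3) maximum principle on a finite set (`JL31.compare`); (4) `|u - G|` is small on the rest by `left`, `right`,
`W_left`, `W_right` (`JL31.bound`, `JL31.lim`). -/
namespace IP.Junc
open Finset Filter Topology

/-- the limit function satisfies the hypotheses of the abstract limit theorem -/
theorem vhyp_W : JL31.VHyp JW.W where
  nonneg _ _ hX hY := JW.W_nonneg hX hY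
  le_one _ _ hX hY := JW.W_le_one hX hY
  left _ hε := JW.W_left hε
  right _ hε := JW.W_right hε
  tay := by
    intro η Λ hη
    set S : Set (ℝ × ℝ) := {p | η ≤ p.1 ∧ p.1 ≤ Λ ∧ 0 ≤ p.2 ∧ p.2 ≤ Λ ∧ (η ≤ p.2 ∨ p.1 ≤ 1 - η)}
      with hS
    have hcl : IsClosed S := by
      have c1 : IsClosed {p : ℝ × ℝ | η ≤ p.1} := isClosed_le continuous_const continuous_fst
      have c2 : IsClosed {p : ℝ × ℝ | p.1 ≤ Λ} := isClosed_le continuous_fst continuous_const
      have c3 : IsClosed {p : ℝ × ℝ | 0 ≤ p.2} := isClosed_le continuous_const continuous_snd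
      have c4 : IsClosed {p : ℝ × ℝ | p.2 ≤ Λ} := isClosed_le continuous_snd continuous_const
      have c5 : IsClosed {p : ℝ × ℝ | η ≤ p.2} := isClosed_le continuous_const continuous_snd
      have c6 : IsClosed {p : ℝ × ℝ | p.1 ≤ 1 - η} := isClosed_le continuous_fst continuous_const
      exact c1.inter (c2.inter (c3.inter (c4.inter (c5.union c6))))
    have hcomp : IsCompact S := by
      refine IsCompact.of_isClosed_subset (isCompact_Icc.prod isCompact_Icc :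
        IsCompact (Set.Icc η Λ ×ˢ Set.Icc (0 : ℝ) Λ)) hcl ?_
      rintro p ⟨h1, h2, h3, h4, -⟩
      exact ⟨⟨h1, h2⟩, ⟨h3, h4⟩⟩
    have hO : S ⊆ JW.O := by
      rintro ⟨X, Y⟩ ⟨h1, h2, h3, h4, h5⟩
      refine JW.mem_O (lt_of_lt_of_le hη h1) h3 ?_
      rcases h5 with h5 | h5
      · exact Or.inr (lt_of_lt_of_le hη h5)
      · exact Or.inl (by simp only at h5; linarith)
    obtain ⟨C, ρ, hC, hρ, h⟩ := JW.tay_compact hcomp hO
    exact ⟨C, ρ, hC.le, hρ, fun X Y h1 h2 h3 h4 h5 =>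
      ⟨_, _, _, _, _, h X Y ⟨h1, h2, h3, h4, h5⟩⟩⟩

theorem Har.lim {u : ℕ → ℕ → ℕ → ℝ} (hu : Har u) {a b : ℝ} (ha : 0 < a) (hb : 0 < b) (m c q : ℕ → ℕ)
    (hc : Tendsto c atTop atTop) (hm : Tendsto (fun k => (m k : ℝ) / c k) atTop (𝓝 a))
    (hq : Tendsto (fun k => (q k : ℝ) / c k) atTop (𝓝 b)) :
    Tendsto (fun k => u (m k) (c k) (q k)) atTop (𝓝 (WW (a ^ 2) (b ^ 2))) := by
  have hmem : ((a ^ 2, b ^ 2) : ℝ × ℝ) ∈ JW.O :=
    JW.mem_O (by positivity) (by positivity) (Or.inr (by positivity))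
  have hcont : ContinuousAt (fun p : ℝ × ℝ => JW.W p.1 p.2) (a ^ 2, b ^ 2) :=
    JW.W_contO.continuousAt (JW.isOpen_O.mem_nhds hmem)
  exact JL31.lim vhyp_W hu ha hb hcont m c q hc hm hq
end IP.Junc
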