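import Pool.Agent.Helper53.J.Defs
import Pool.Agent.Helper32.J.Right
/-! MODULE RSW (owners helper99: `pJ_left`, helper32: `pJ_right`, each may use the own file RswL.lean / RswR.lean).
`pJ_left`: the crossing leaves the upper leg through its mouth (width `i`) and reaches distance `≥ (L-i)/2` resp. `≥ h`:
one arm from scale `i` to scale `L` (resp. `h`).
`pJ_right`: in each dyadic half annulus (radius `r` between `4 η L` and `L/4`, centre `(L,1)`, the part `u ≤ i` or so) there is
with probability `≥ c` an open path from the wall `u = i, w ≥ h+1` to the wall `u = L, w ≤ 1` (two horizontal and one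
vertical rectangle crossing, RSW + FKG; different annuli are independent). -/
namespace H47Perc.JN
open Filter Topology

theorem pJ_left {ε : ℝ} (hε : 0 < ε) : ∃ η : ℝ, 0 < η ∧ ∃ N : ℕ, ∀ i L h M : ℕ, N ≤ L →
    ((i : ℝ) ≤ η * L ∨ (L ≤ h ∧ (i : ℝ) ≤ η * h)) → pJ i L h M ≤ ε :=
  left_bound hε

theorem pJ_right {ε : ℝ} (hε : 0 < ε) : ∃ η : ℝ, 0 < η ∧ ∃ N : ℕ, ∀ i L h : ℕ, N ≤ L →
    (h : ℝ) ≤ η * L → (1 - η) * L ≤ i → ∀ᶠ M : ℕ in atTop, 1 - ε ≤ pJ i L h M :=
  right_bound hε

end H47Perc.JN
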