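import Pool.Agent.Helper60.J.Hom
import Pool.Agent.Helper60.J.HomGt
import Pool.Agent.Helper60.J.Lim
import Pool.Agent.Helper60.J.Rsw
/-! MODULE MAIN (helper60): the crossing probabilities of the infinite T-junctions converge. -/
namespace IP.Junc
open Filter Topology Real H47Perc.JN

/-- the infinite T-junction -/
theorem jv_tendsto_of {JV : ℕ → ℕ → ℕ → ℝ}
    (h1 : ∀ m p q : ℕ, IP.Slit.tri m (p + q) (IP.P m 0) (((IP.In 0) ^ p) (IP.P q 0))
      (H47Perc.JJ.KJ m (m + p) q (IP.P (m + p) 0)) = JV m (m + p) q)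
    (h2 : ∀ n0 p q : ℕ, 1 ≤ p → IP.Slit.tri (n0 + p) (p + q) (IP.P (n0 + p) 0) (IP.P q 0)
      (H47Perc.JJ.KJ2 n0 p q (IP.P n0 0)) = JV (n0 + p) n0 q) (m c q : ℕ) :
    Tendsto (fun M : ℕ => pJ (2 * m + 1) (2 * c + 1) (2 * q + 1) M) atTop (𝓝 (JV m c q)) := by
  rcases le_or_gt m c with h | h
  · obtain ⟨p, rfl⟩ := Nat.exists_eq_add_of_le h
    rw [← h1]
    exact H47Perc.JJ.pJ_tendsto m p q
  · obtain ⟨p, rfl⟩ := Nat.exists_eq_add_of_le h.le
    rw [← h2 c p q (by omega)]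
    exact H47Perc.JJ.pJ_tendsto3 c p q

/-- the infinite T-junction -/
theorem jv_tendsto (m c q : ℕ) :
    Tendsto (fun M : ℕ => pJ (2 * m + 1) (2 * c + 1) (2 * q + 1) M) atTop (𝓝 (JV m c q)) :=
  jv_tendsto_of hom_le hom_gt m c q

theorem jv_pJ_nonneg (i L h M : ℤ) : 0 ≤ pJ i L h M := by
  unfold pJ
  exact Pool.Agent.Helper69.RSW.P_nonneg _ _

theorem jv_pJ_le_one (i L h M : ℤ) : pJ i L h M ≤ 1 := by
  unfold pJ
  exact Pool.Agent.Helper69.RSW.P_le_one _ _

theorem jv_Har : Har JV where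
  nonneg m c q := ge_of_tendsto' (jv_tendsto m c q) fun M => jv_pJ_nonneg _ _ _ _
  le_one m c q := le_of_tendsto' (jv_tendsto m c q) fun M => jv_pJ_le_one _ _ _ _
  har := JV_har
  left := by
    intro ε hε
    obtain ⟨η, hη, N, h⟩ := pJ_left hε
    refine ⟨η / 2, half_pos hη, N + ⌈1 / η⌉₊, fun m c q hc hm => ?_⟩
    refine le_of_tendsto' (jv_tendsto m c q) fun M => ?_
    have hN : (1 / η) ≤ c := (Nat.le_ceil _).trans (by exact_mod_cast (by omega : ⌈1 / η⌉₊ ≤ c))
    have h1 : 1 ≤ η * c := by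
      rw [div_le_iff₀ hη] at hN
      linarith
    have := h (2 * m + 1) (2 * c + 1) (2 * q + 1) M (by omega) (by
      rcases hm with hm | ⟨hcq, hm⟩
      · left
        push_cast
        nlinarith
      · right
        refine ⟨by omega, ?_⟩
        have h2 : (c : ℝ) ≤ q := by exact_mod_cast hcq
        push_cast
        nlinarith)
    push_cast at this
    exact this
  right := by
    intro ε hε
    obtain ⟨η, hη, N, h⟩ := pJ_right hε
    refine ⟨min (η / 2) (1 / 2), by positivity, N + ⌈1 / η⌉₊ + 1, fun m c q hc hq hm => ?_⟩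
    have h3 : min (η / 2) (1 / 2) ≤ η / 2 := min_le_left _ _
    have h4 : min (η / 2) (1 / 2) ≤ 1 / 2 := min_le_right _ _
    have hc1 : (1 : ℝ) ≤ c := by exact_mod_cast (by omega : 1 ≤ c)
    have hN : (1 / η) ≤ c := (Nat.le_ceil _).trans (by exact_mod_cast (by omega : ⌈1 / η⌉₊ ≤ c))
    have h1 : 1 ≤ η * c := by
      rw [div_le_iff₀ hη] at hN
      linarith
    have h2 := h (2 * m + 1) (2 * c + 1) (2 * q + 1) (by omega) (by
        push_cast
        nlinarith) (by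
        push_cast
        have : (1 - η / 2) * c ≤ m := le_trans (by gcongr) hm
        nlinarith)
    refine ge_of_tendsto (jv_tendsto m c q) ?_
    filter_upwards [h2] with M hM
    push_cast at hM
    exact hM

theorem jv_lim {a b : ℝ} (ha : 0 < a) (hb : 0 < b) (m c q : ℕ → ℕ)
    (hc : Tendsto c atTop atTop) (hm : Tendsto (fun k => (m k : ℝ) / c k) atTop (𝓝 a))
    (hq : Tendsto (fun k => (q k : ℝ) / c k) atTop (𝓝 b)) :
    Tendsto (fun k => JV (m k) (c k) (q k)) atTop (𝓝 (WW (a ^ 2) (b ^ 2))) :=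
  jv_Har.lim ha hb m c q hc hm hq
end IP.Junc
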