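import Pool.Agent.Helper59.Slit.HomI
import Pool.Agent.Helper60.Slit.Defs
import Pool.Agent.Helper60.J.Chain
/-! MODULE POLY (owner helper28): the monic module elements `FP m (c) + FQ m (c) x` (width `2m+1`, vanishing to order
`2m+1` at `x = 2`), their mirror images (vanishing at `x = -2`), the three term recurrence.
From `ao`, `bo`, `ae`, `be` of Helper59/Slit/HomE (eliminate `ae`, `be`), `pade_unique`, `odd_dvd` (HomG), `hom_dvd`, `coe_comp` (HomI). -/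
namespace IP.Junc
open Polynomial Pool.Agent.Helper59.Slit

noncomputable def FQ (m : ℕ) : ℂ[X] := C (kap ℂ (2 * m + 1))⁻¹ * ao ℂ m
noncomputable def FP (m : ℕ) : ℂ[X] := -(C (kap ℂ (2 * m + 1))⁻¹ * bo ℂ m)
/-- mirror image -/
noncomputable def FQt (q : ℕ) : ℂ[X] := C ((-1) ^ q) * (FQ q).comp (-X)
noncomputable def FPt (q : ℕ) : ℂ[X] := -(C ((-1) ^ q) * (FP q).comp (-X))

theorem poly_kap1 : kap ℂ (2 * 0 + 1) = -1 := by
  rw [show 2 * 0 + 1 = 0 + 1 from rfl, kap_succ]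
  simp [kap, AA]

theorem poly_kap_step (m : ℕ) : kap ℂ (2 * (m + 1) + 1) =
    (6 * (m : ℂ) + 8) * (6 * (m : ℂ) + 5) / 4 * kap ℂ (2 * m + 1) := by
  rw [show 2 * (m + 1) + 1 = 2 * m + 1 + 1 + 1 by ring, kap_succ (2 * m + 1 + 1), kap_succ (2 * m + 1)]
  push_cast
  ring

theorem FQ_zero : FQ 0 = 1 := by
  unfold FQ
  rw [poly_kap1, ao_zero, show (C (-1 : ℂ)⁻¹ : ℂ[X]) = -1 from by simp]
  ring
theorem FP_zero : FP 0 = -2 := by
  unfold FP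
  rw [poly_kap1, bo_zero, show (C (-1 : ℂ)⁻¹ : ℂ[X]) = -1 from by simp]
  ring

theorem poly_ne (m a b : ℕ) (hb : 0 < b) : (a : ℂ) * (m : ℂ) + (b : ℂ) ≠ 0 := by
  have h : (a : ℂ) * (m : ℂ) + (b : ℂ) = ((a * m + b : ℕ) : ℂ) := by push_cast; ring
  rw [h]
  exact_mod_cast (by omega : a * m + b ≠ 0)

/-- two steps of the recurrences, evaluated -/
theorem poly_ao (m : ℕ) (z : ℂ) : (ao ℂ (m + 1)).eval z = -(12 * (m : ℂ) + 15) / 2 * (ae ℂ (m + 1) - be ℂ (m + 1)).eval z +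
    (9 * (2 * (m : ℂ) + 2) ^ 2 - 1) / 4 * (2 - z) * (ao ℂ m).eval z := by
  rw [ao_succ]
  simp only [eval_add, eval_mul, eval_C, eval_X, eval_sub, eval_ofNat]

theorem poly_a (m : ℕ) (z : ℂ) : (ae ℂ (m + 1) - be ℂ (m + 1)).eval z = -(12 * (m : ℂ) + 9) / 2 * (z + 2) * (ao ℂ m).eval z +
    (9 * (2 * (m : ℂ) + 1) ^ 2 - 1) / 4 * (2 - z) * (ae ℂ m - be ℂ m).eval z := by
  rw [ae_succ, be_succ]
  simp only [eval_add, eval_mul, eval_C, eval_X, eval_sub, eval_ofNat]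
  ring

theorem poly_bo (m : ℕ) (z : ℂ) : (bo ℂ (m + 1)).eval z =
    -(12 * (m : ℂ) + 15) / 2 * (ae ℂ (m + 1) + (1 + X) * be ℂ (m + 1)).eval z +
    (9 * (2 * (m : ℂ) + 2) ^ 2 - 1) / 4 * (2 - z) * (bo ℂ m).eval z := by
  rw [bo_succ]
  simp only [eval_add, eval_mul, eval_C, eval_X, eval_sub, eval_ofNat, eval_one]

theorem poly_b (m : ℕ) (z : ℂ) : (ae ℂ (m + 1) + (1 + X) * be ℂ (m + 1)).eval z =
    -(12 * (m : ℂ) + 9) / 2 * (z + 2) * (bo ℂ m).eval z +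
    (9 * (2 * (m : ℂ) + 1) ^ 2 - 1) / 4 * (2 - z) * (ae ℂ m + (1 + X) * be ℂ m).eval z := by
  rw [ae_succ, be_succ]
  simp only [eval_add, eval_mul, eval_C, eval_X, eval_sub, eval_ofNat, eval_one]
  ring

/-- the cleared form of the recurrence -/
theorem poly_key {m z a0 a1 a2 e1 e2 : ℂ}
    (h1 : a1 = -(12 * m + 15) / 2 * e1 + (9 * (2 * m + 2) ^ 2 - 1) / 4 * (2 - z) * a0)
    (h2 : a2 = -(12 * (m + 1) + 15) / 2 * e2 + (9 * (2 * (m + 1) + 2) ^ 2 - 1) / 4 * (2 - z) * a1)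
    (h3 : e2 = -(12 * (m + 1) + 9) / 2 * (z + 2) * a1 + (9 * (2 * (m + 1) + 1) ^ 2 - 1) / 4 * (2 - z) * e1) :
    4 * (4 * m + 5) * a2 +
        ((6 * m + 7) * (6 * m + 10)) * ((6 * m + 8) * (6 * m + 5)) * (4 * m + 9) / 4 * (z - 2) ^ 2 * a0 =
      ((((6 * m + 11) * (6 * m + 14)) * (4 * m + 5) + ((6 * m + 7) * (6 * m + 10)) * (4 * m + 9)) * (z - 2) +
        36 * (4 * m + 5) * (4 * m + 7) * (4 * m + 9)) * a1 := by
  linear_combination 4 * (4 * m + 5) * h2 + 4 * (4 * m + 5) * (-(12 * (m + 1) + 15) / 2) * h3 +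
    8 / 3 * (-(12 * (m + 1) + 15) / 2) * ((9 * (2 * (m + 1) + 1) ^ 2 - 1) / 4) * (2 - z) * h1

theorem poly_frac {A B D p q r k Z a0 a1 a2 : ℂ} (hA : A ≠ 0) (hD : D ≠ 0) (hp : p ≠ 0) (hq : q ≠ 0) (hr : r ≠ 0)
    (hk : k ≠ 0) (h : 4 * p * a2 + B * D * r / 4 * Z ^ 2 * a0 = ((A * p + B * r) * Z + 36 * p * q * r) * a1) :
    A / (9 * q * r) * ((A / 4 * (D / 4 * k))⁻¹ * a2) + B / (9 * p * q) * Z ^ 2 * (k⁻¹ * a0) =
      ((A / (9 * q * r) + B / (9 * p * q)) * Z + 4) * ((D / 4 * k)⁻¹ * a1) := by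
  have e : A / (9 * q * r) * ((A / 4 * (D / 4 * k))⁻¹ * a2) + B / (9 * p * q) * Z ^ 2 * (k⁻¹ * a0) -
      ((A / (9 * q * r) + B / (9 * p * q)) * Z + 4) * ((D / 4 * k)⁻¹ * a1) =
      4 / (9 * p * q * r * D * k) * (4 * p * a2 + B * D * r / 4 * Z ^ 2 * a0 -
        ((A * p + B * r) * Z + 36 * p * q * r) * a1) := by
    field_simp
    ring
  rw [← sub_eq_zero, e, h, sub_self, mul_zero]

/-- elimination -/
theorem poly_elim {m : ℕ} {z k a0 a1 a2 e1 e2 : ℂ} (hk : k ≠ 0)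
    (h1 : a1 = -(12 * (m : ℂ) + 15) / 2 * e1 + (9 * (2 * (m : ℂ) + 2) ^ 2 - 1) / 4 * (2 - z) * a0)
    (h2 : a2 = -(12 * ((m : ℂ) + 1) + 15) / 2 * e2 + (9 * (2 * ((m : ℂ) + 1) + 2) ^ 2 - 1) / 4 * (2 - z) * a1)
    (h3 : e2 = -(12 * ((m : ℂ) + 1) + 9) / 2 * (z + 2) * a1 + (9 * (2 * ((m : ℂ) + 1) + 1) ^ 2 - 1) / 4 * (2 - z) * e1) :
    (ku (m + 1) : ℂ) * (((6 * ((m : ℂ) + 1) + 8) * (6 * ((m : ℂ) + 1) + 5) / 4 *
        ((6 * (m : ℂ) + 8) * (6 * (m : ℂ) + 5) / 4 * k))⁻¹ * a2) +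
      (kd (m + 1) : ℂ) * (z - 2) ^ 2 * (k⁻¹ * a0) =
    ((ku (m + 1) + kd (m + 1) : ℂ) * (z - 2) + 4) * (((6 * (m : ℂ) + 8) * (6 * (m : ℂ) + 5) / 4 * k)⁻¹ * a1) := by
  have n1 : (6 * (m : ℂ) + 8) ≠ 0 := by exact_mod_cast poly_ne m 6 8 (by norm_num)
  have n2 : (6 * (m : ℂ) + 5) ≠ 0 := by exact_mod_cast poly_ne m 6 5 (by norm_num)
  have n3 : (6 * (m : ℂ) + 14) ≠ 0 := by exact_mod_cast poly_ne m 6 14 (by norm_num)
  have n4 : (6 * (m : ℂ) + 11) ≠ 0 := by exact_mod_cast poly_ne m 6 11 (by norm_num)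
  have n5 : (4 * (m : ℂ) + 7) ≠ 0 := by exact_mod_cast poly_ne m 4 7 (by norm_num)
  have n6 : (4 * (m : ℂ) + 9) ≠ 0 := by exact_mod_cast poly_ne m 4 9 (by norm_num)
  have n7 : (4 * (m : ℂ) + 5) ≠ 0 := by exact_mod_cast poly_ne m 4 5 (by norm_num)
  have hku : (ku (m + 1) : ℂ) = ((6 * (m : ℂ) + 11) * (6 * (m : ℂ) + 14)) / (9 * (4 * (m : ℂ) + 7) * (4 * (m : ℂ) + 9)) := by
    unfold ku
    push_cast
    congr 1 <;> ring
  have hkd : (kd (m + 1) : ℂ) = ((6 * (m : ℂ) + 7) * (6 * (m : ℂ) + 10)) / (9 * (4 * (m : ℂ) + 5) * (4 * (m : ℂ) + 7)) := by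
    unfold kd
    push_cast
    congr 1 <;> ring
  rw [hku, hkd, show (6 * ((m : ℂ) + 1) + 8) * (6 * ((m : ℂ) + 1) + 5) = (6 * (m : ℂ) + 11) * (6 * (m : ℂ) + 14) by ring]
  exact poly_frac (mul_ne_zero n4 n3) (mul_ne_zero n1 n2) n7 n5 n6 hk (poly_key h1 h2 h3)

theorem poly_cast (m : ℕ) : ((m + 1 : ℕ) : ℂ) = (m : ℂ) + 1 := by push_cast; ring

theorem FQ_rec (m : ℕ) : C (ku (m + 1) : ℂ) * FQ (m + 2) + C (kd (m + 1) : ℂ) * (X - 2) ^ 2 * FQ m =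
    (C (ku (m + 1) + kd (m + 1) : ℂ) * (X - 2) + 4) * FQ (m + 1) := by
  refine Polynomial.funext fun z => ?_
  unfold FQ
  rw [show m + 2 = m + 1 + 1 from rfl, poly_kap_step (m + 1), poly_kap_step m, poly_cast]
  simp only [eval_add, eval_mul, eval_C, eval_X, eval_sub, eval_ofNat, eval_pow]
  have h2 := poly_ao (m + 1) z
  have h3 := poly_a (m + 1) z
  rw [poly_cast] at h2 h3
  exact poly_elim (kap_ne _) (poly_ao m z) h2 h3

theorem FP_rec (m : ℕ) : C (ku (m + 1) : ℂ) * FP (m + 2) + C (kd (m + 1) : ℂ) * (X - 2) ^ 2 * FP m =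
    (C (ku (m + 1) + kd (m + 1) : ℂ) * (X - 2) + 4) * FP (m + 1) := by
  refine Polynomial.funext fun z => ?_
  unfold FP
  rw [show m + 2 = m + 1 + 1 from rfl, poly_kap_step (m + 1), poly_kap_step m, poly_cast]
  simp only [eval_add, eval_mul, eval_C, eval_X, eval_sub, eval_ofNat, eval_pow, eval_neg]
  have h2 := poly_bo (m + 1) z
  have h3 := poly_b (m + 1) z
  rw [poly_cast] at h2 h3
  have h := poly_elim (kap_ne (2 * m + 1)) (poly_bo m z) h2 h3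
  linear_combination -h

theorem FQ_one : FQ 1 = X + C (23 / 2) := by
  refine Polynomial.funext fun z => ?_
  have h1 : FQ 1 = C (kap ℂ (2 * (0 + 1) + 1))⁻¹ * ao ℂ (0 + 1) := rfl
  rw [h1, poly_kap_step 0, poly_kap1]
  simp only [eval_add, eval_mul, eval_C, eval_X]
  rw [poly_ao, poly_a, ae_zero, be_zero, ao_zero]
  simp only [eval_sub, eval_neg, eval_one, eval_zero]
  push_cast
  ring
theorem FP_one : FP 1 = -(C (7 / 2) * X) - 20 := by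
  refine Polynomial.funext fun z => ?_
  have h1 : FP 1 = -(C (kap ℂ (2 * (0 + 1) + 1))⁻¹ * bo ℂ (0 + 1)) := rfl
  rw [h1, poly_kap_step 0, poly_kap1]
  simp only [eval_sub, eval_mul, eval_C, eval_X, eval_neg, eval_ofNat]
  rw [poly_bo, poly_b, ae_zero, be_zero, bo_zero]
  simp only [eval_add, eval_neg, eval_one, eval_zero, eval_mul, eval_X, eval_ofNat]
  push_cast
  ring

theorem FQt_zero : FQt 0 = 1 := by
  unfold FQt
  rw [FQ_zero]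
  simp
theorem FPt_zero : FPt 0 = 2 := by
  unfold FPt
  rw [FP_zero]
  simp
theorem FQt_one : FQt 1 = X - C (23 / 2) := by
  unfold FQt
  rw [FQ_one, add_comp, X_comp, C_comp, pow_one, C_neg, C_1]
  ring

theorem poly_mirror {F : ℕ → ℂ[X]} {m : ℕ} (h : C (ku (m + 1) : ℂ) * F (m + 2) + C (kd (m + 1) : ℂ) * (X - 2) ^ 2 * F m =
    (C (ku (m + 1) + kd (m + 1) : ℂ) * (X - 2) + 4) * F (m + 1)) :
    C (ku (m + 1) : ℂ) * (C ((-1) ^ (m + 2)) * (F (m + 2)).comp (-X)) +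
      C (kd (m + 1) : ℂ) * (X + 2) ^ 2 * (C ((-1) ^ m) * (F m).comp (-X)) =
    (C (ku (m + 1) + kd (m + 1) : ℂ) * (X + 2) - 4) * (C ((-1) ^ (m + 1)) * (F (m + 1)).comp (-X)) := by
  refine Polynomial.funext fun z => ?_
  have h1 := congrArg (fun p => p.eval (-z)) h
  simp only [eval_add, eval_mul, eval_C, eval_X, eval_sub, eval_ofNat, eval_pow, eval_comp, eval_neg] at h1 ⊢
  rw [pow_succ, pow_succ]
  linear_combination (-1) ^ m * h1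

theorem FQt_rec (m : ℕ) : C (ku (m + 1) : ℂ) * FQt (m + 2) + C (kd (m + 1) : ℂ) * (X + 2) ^ 2 * FQt m =
    (C (ku (m + 1) + kd (m + 1) : ℂ) * (X + 2) - 4) * FQt (m + 1) :=
  poly_mirror (FQ_rec m)
theorem FPt_rec (m : ℕ) : C (ku (m + 1) : ℂ) * FPt (m + 2) + C (kd (m + 1) : ℂ) * (X + 2) ^ 2 * FPt m =
    (C (ku (m + 1) + kd (m + 1) : ℂ) * (X + 2) - 4) * FPt (m + 1) := by
  have h := poly_mirror (FP_rec m)
  unfold FPt
  linear_combination -h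

theorem FQ_deg (m : ℕ) : (FQ m).natDegree = m ∧ (FQ m).coeff m = 1 := by
  have h6 := (pq_deg (K := ℂ) m).2.2.2.2.2
  unfold FQ
  constructor
  · rw [natDegree_C_mul (inv_ne_zero (kap_ne _)), ao_natDegree]
  · rw [coeff_C_mul, h6, inv_mul_cancel₀ (kap_ne _)]
theorem FP_deg (m : ℕ) : (FP m).natDegree ≤ m := by
  unfold FP
  rw [natDegree_neg]
  exact (natDegree_C_mul_le _ _).trans (bo_natDegree m)

theorem poly_dvd_of_ps {n : ℕ} {P : ℂ[X]} (h : (PowerSeries.X : PowerSeries ℂ) ^ n ∣ (P : PowerSeries ℂ)) :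
    X ^ n ∣ P := by
  rw [PowerSeries.X_pow_dvd_iff] at h
  rw [X_pow_dvd_iff]
  intro d hd
  have := h d hd
  rwa [Polynomial.coeff_coe] at this

theorem F_dvd (m : ℕ) : (X - C 2) ^ (2 * m + 1) ∣
    (FP m).comp (X ^ 3 - C 3 * X) + (FQ m).comp (X ^ 3 - C 3 * X) * X := by
  have h0 := odd_dvd (K := ℂ) m
  have h1 : (PowerSeries.X : PowerSeries ℂ) ^ (2 * m + 1) ∣ ev (FP m) + ev (FQ m) * xx ℂ := by
    have h2 : ev (FP m) + ev (FQ m) * xx ℂ =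
        algebraMap ℂ (PowerSeries ℂ) (kap ℂ (2 * m + 1))⁻¹ * (ev (ao ℂ m) * xx ℂ - ev (bo ℂ m)) := by
      unfold FP FQ ev
      rw [map_neg, map_mul, map_mul, aeval_C]
      ring
    rw [h2]
    exact Dvd.dvd.mul_left h0 _
  set Q : ℂ[X] := (FP m).comp (X ^ 3 - C 3 * X) + (FQ m).comp (X ^ 3 - C 3 * X) * X with hQ
  have e1 : (X ^ 3 - C 3 * X : ℂ[X]).comp (X + C 2) = 2 + X * (3 + X) ^ 2 := by
    rw [sub_comp, pow_comp, mul_comp, X_comp, C_comp, show (C (2 : ℂ) : ℂ[X]) = 2 from map_ofNat _ 2,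
      show (C (3 : ℂ) : ℂ[X]) = 3 from map_ofNat _ 3]
    ring
  have h3 : ((Q.comp (X + C 2) : ℂ[X]) : PowerSeries ℂ) = ev (FP m) + ev (FQ m) * xx ℂ := by
    rw [hQ, add_comp, mul_comp, comp_assoc, comp_assoc, e1, X_comp, Polynomial.coe_add, Polynomial.coe_mul,
      coe_comp, coe_comp]
    congr 2
    rw [Polynomial.coe_add, Polynomial.coe_X, Polynomial.coe_C, map_ofNat]
    unfold xx
    ring
  rw [← h3] at h1
  have h4 := poly_dvd_of_ps h1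
  obtain ⟨T, hT⟩ := h4
  refine ⟨T.comp (X - C 2), ?_⟩
  have h5 := congrArg (fun p => p.comp (X - C 2)) hT
  simp only [mul_comp, pow_comp, X_comp, comp_assoc, add_comp, C_comp, sub_add_cancel, comp_X] at h5
  exact h5

/-- uniqueness; `IsE` is the predicate of Slit/Defs -/
theorem F_unique (m : ℕ) {κ : ℂ} {A B : ℂ[X]} (h : IP.Slit.IsE (2 * m + 1) κ A B) :
    A = C κ * FP m ∧ B = C κ * FQ m := by
  obtain ⟨h1, h2, h3, h4⟩ := h
  rw [show (2 * m + 1) / 2 = m by omega] at h1 h2 h3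
  obtain ⟨s, e1, e2, e3⟩ := pade_unique m A B h1 h2 (hom_dvd _ _ _ h4)
  rw [h3] at e3
  have hs : C s = C κ * C (kap ℂ (2 * m + 1))⁻¹ := by
    rw [← C_mul, e3, mul_assoc, mul_inv_cancel₀ (kap_ne _), mul_one]
  unfold FP FQ
  constructor
  · rw [e2, hs]
    ring
  · rw [e1, hs]
    ring
end IP.Junc
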